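import Pool.Agent.ConfStr48.Defs

/-!
# Conflict graphs: the variant in which all points of the drawing are seen
-/

namespace Pool.Agent.ConfStr48

open Set

/-- Some special point `p ∈ C` has `b(p) ∩ C' ≠ ∅`, where `b(p)` is the set of all points of the
drawing (not only of its special points) at distance strictly less than `dist p a(p)` from `p`. -/
def SeesAll (D : Finset (Sym2 Plane)) (C C' : Set Plane) : Prop :=
  ∃ p ∈ specialPoints D, p ∈ C ∧ ∃ a, IsNearest D C p a ∧
    ∃ q ∈ carrier D, q ∈ C' ∧ dist p q < dist p a

/-- `G` is (isomorphic to) the conflict graph of a plane drawing, with `SeesAll` in place of `Sees`: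
its vertices are in bijection with the connected components of the drawing, and two vertices are
adjacent iff the two (different) components conflict. -/
def IsConflictGraphAll {V : Type*} (G : SimpleGraph V) : Prop :=
  ∃ D : Finset (Sym2 Plane), IsDrawing D ∧ IsPlane D ∧
    ∃ C : V → Set Plane, Function.Injective C ∧ (∀ K, IsComponent D K ↔ ∃ v, K = C v) ∧
      ∀ u v, G.Adj u v ↔ u ≠ v ∧ (SeesAll D (C u) (C v) ∨ SeesAll D (C v) (C u))

end Pool.Agent.ConfStr48
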