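import Pool.Agent.ConfStr48.Discrete
import Pool.Agent.ConfStr48.DefsAll

/-!
# Every conflict graph in the sense of `IsConflictGraphAll` is a string graph
-/

namespace Pool.Agent.ConfStr48

open Set Filter Topology

lemma exists_inj {W : Type*} [Finite W] (Q : W → Set Plane) (hQ : ∀ w, (Q w).Infinite)
    {F : Set Plane} (hF : F.Finite) :
    ∃ q : W → Plane, Function.Injective q ∧ (∀ w, q w ∈ Q w) ∧ ∀ w, q w ∉ F := by
  classical
  have := Fintype.ofFinite W
  have key : ∀ T : Finset W, ∃ q : W → Plane, (∀ w ∈ T, ∀ u ∈ T, q w = q u → w = u) ∧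
      (∀ w ∈ T, q w ∈ Q w) ∧ ∀ w ∈ T, q w ∉ F := by
    intro T
    induction T using Finset.induction_on with
    | empty => exact ⟨fun _ => 0, by simp, by simp, by simp⟩
    | insert w₀ T hw₀ ih =>
      obtain ⟨q, h1, h2, h3⟩ := ih
      obtain ⟨x, hx, hx'⟩ := ((hQ w₀).sdiff (hF.union (T.image q).finite_toSet)).nonempty
      have hxF : x ∉ F := fun h => hx' (Or.inl h)
      have hxT : ∀ w ∈ T, q w ≠ x := fun w hw h =>
        hx' (Or.inr (Finset.mem_coe.mpr (Finset.mem_image.mpr ⟨w, hw, h⟩)))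
      have hne : ∀ w ∈ T, w ≠ w₀ := fun w hw h => hw₀ (h ▸ hw)
      refine ⟨Function.update q w₀ x, ?_, ?_, ?_⟩
      · intro w hw u hu hwu
        rcases Finset.mem_insert.mp hw with hw' | hw'
        · rcases Finset.mem_insert.mp hu with hu' | hu'
          · exact hw'.trans hu'.symm
          · rw [hw', Function.update_self, Function.update_of_ne (hne u hu')] at hwu
            exact absurd hwu.symm (hxT u hu')
        · rcases Finset.mem_insert.mp hu with hu' | hu'
          · rw [hu', Function.update_self, Function.update_of_ne (hne w hw')] at hwu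
            exact absurd hwu (hxT w hw')
          · rw [Function.update_of_ne (hne w hw'), Function.update_of_ne (hne u hu')] at hwu
            exact h1 w hw' u hu' hwu
      · intro w hw
        rcases Finset.mem_insert.mp hw with hw' | hw'
        · rw [hw', Function.update_self]; exact hx
        · rw [Function.update_of_ne (hne w hw')]; exact h2 w hw'
      · intro w hw
        rcases Finset.mem_insert.mp hw with hw' | hw'
        · rw [hw', Function.update_self]; exact hxF
        · rw [Function.update_of_ne (hne w hw')]; exact h3 w hw'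
  obtain ⟨q, h1, h2, h3⟩ := key Finset.univ
  exact ⟨q, fun w u => h1 w (Finset.mem_univ _) u (Finset.mem_univ _),
    fun w => h2 w (Finset.mem_univ _), fun w => h3 w (Finset.mem_univ _)⟩

lemma seg_mk (a b : Plane) : seg s(a, b) = segment ℝ a b := by
  ext x
  constructor
  · rintro ⟨c, d, h, hx⟩
    rcases Sym2.eq_iff.mp h with ⟨rfl, rfl⟩ | ⟨rfl, rfl⟩
    · exact hx
    · rwa [segment_symm]
  · exact fun hx => ⟨a, b, rfl, hx⟩

/-- The points of a nondegenerate segment in a ball. -/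
lemma infinite_near {s : Sym2 Plane} (hs : ¬ s.IsDiag) {z p : Plane} {r : ℝ} (hz : z ∈ seg s)
    (hr : dist p z < r) : {x | x ∈ seg s ∧ dist p x < r}.Infinite := by
  induction s using Sym2.inductionOn with
  | hf a b =>
    have hab : a ≠ b := fun h => hs (Sym2.mk_isDiag_iff.mpr h)
    rw [seg_mk] at hz ⊢
    obtain ⟨e, he, hez⟩ : ∃ e, e ∈ segment ℝ a b ∧ e ≠ z := by
      by_cases h : a = z
      · exact ⟨b, right_mem_segment _ _ _, fun hb => hab (h.trans hb.symm)⟩
      · exact ⟨a, left_mem_segment _ _ _, h⟩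
    have hcont : Continuous fun t : ℝ => dist p (AffineMap.lineMap z e t) :=
      continuous_const.dist AffineMap.lineMap_continuous
    have h1 : ∀ᶠ t in 𝓝[>] (0 : ℝ), dist p (AffineMap.lineMap z e t) < r := by
      refine Filter.Eventually.filter_mono nhdsWithin_le_nhds ?_
      refine (hcont.tendsto 0).eventually_lt_const ?_
      rw [AffineMap.lineMap_apply_zero]
      exact hr
    obtain ⟨t₀, ht₀, ht⟩ := (mem_nhdsGT_iff_exists_Ioo_subset' (show (0 : ℝ) < 1 from one_pos)).mp
      (Filter.inter_mem h1 (Ioo_mem_nhdsGT one_pos))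
    have hinj : Function.Injective (AffineMap.lineMap (k := ℝ) z e) :=
      AffineMap.lineMap_injective ℝ (fun h => hez h.symm)
    refine ((Ioo_infinite ht₀).image hinj.injOn).mono ?_
    rintro _ ⟨t, htt, rfl⟩
    have h2 := ht htt
    refine ⟨?_, h2.1⟩
    exact (convex_segment a b).segment_subset hz he
      (by rw [segment_eq_image_lineMap]; exact ⟨t, ⟨h2.2.1.le, h2.2.2.le⟩, rfl⟩)

lemma component_eq_of_mem {D : Finset (Sym2 Plane)} {C C' : Set Plane} (hC : IsComponent D C)
    (hC' : IsComponent D C') {z : Plane} (hz : z ∈ C) (hz' : z ∈ C') : C = C' := by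
  obtain ⟨x, -, rfl⟩ := hC
  obtain ⟨x', -, rfl⟩ := hC'
  rw [connectedComponentIn_eq hz, connectedComponentIn_eq hz']

theorem isStringGraph_of_all {V : Type*} {G : SimpleGraph V} (hG : IsConflictGraphAll G) :
    IsStringGraph G := by
  classical
  obtain ⟨D, hD, -, C, hCinj, hC, hadj⟩ := hG
  have hcomp : ∀ v, IsComponent D (C v) := fun v => (hC _).mpr ⟨v, rfl⟩
  have hdis : ∀ u v, u ≠ v → Disjoint (C u) (C v) := by
    intro u v huv
    rw [Set.disjoint_left]
    intro z hz hz'
    exact huv (hCinj (component_eq_of_mem (hcomp u) (hcomp v) hz hz'))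
  have hsegC : ∀ v, ∀ z ∈ C v, ∃ s ∈ D, seg s ⊆ C v ∧ z ∈ seg s := by
    intro v z hz
    rw [component_eq (hcomp v)] at hz
    obtain ⟨s, hs⟩ := mem_iUnion.mp hz
    exact ⟨s.1, s.2.1, s.2.2, hs⟩
  have hne : ∀ v, (C v).Nonempty := by
    intro v
    obtain ⟨x, hx, hxe⟩ := hcomp v
    rw [hxe]
    exact ⟨x, mem_connectedComponentIn hx⟩
  have hfin : Finite V := by
    have h1 : ∀ v, ∃ s : {s // s ∈ D}, seg s.1 ⊆ C v := by
      intro v
      obtain ⟨z, hz⟩ := hne v
      obtain ⟨s, hs, hsC, -⟩ := hsegC v z hz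
      exact ⟨⟨s, hs⟩, hsC⟩
    choose f hf using h1
    refine Finite.of_injective f fun u v huv => ?_
    by_contra hne'
    obtain ⟨z, hz⟩ := (isCurve_seg (f u).1).nonempty
    exact Set.disjoint_left.mp (hdis u v hne') (hf u hz) (hf v (huv ▸ hz))
  -- the whiskers
  let W := {e : V × V // e.1 ≠ e.2 ∧ SeesAll D (C e.1) (C e.2)}
  have : Fintype V := Fintype.ofFinite V
  have : Fintype W := Fintype.ofFinite W
  have hW : ∀ w : W, ∃ (p : Plane) (r : ℝ) (z : Plane), p ∈ C w.1.1 ∧ z ∈ C w.1.2 ∧ dist p z < r ∧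
      ∀ v x, x ∈ C v → dist p x < r → SeesAll D (C w.1.1) (C v) := by
    intro w
    obtain ⟨p, hp, hpC, a, ha, z, hzD, hz, hlt⟩ := w.2.2
    refine ⟨p, dist p a, z, hpC, hz, hlt, fun v x hx hlt' => ⟨p, hp, hpC, a, ha, x, ?_, hx, hlt'⟩⟩
    obtain ⟨s, hs, -, hxs⟩ := hsegC v x hx
    exact mem_iUnion₂.mpr ⟨s, hs, hxs⟩
  choose p d z hp hz hlt hsee using hW
  have hinf : ∀ w : W, {x | x ∈ C w.1.2 ∧ dist (p w) x < d w}.Infinite := by
    intro w
    obtain ⟨s, hs, hsC, hzs⟩ := hsegC _ _ (hz w)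
    exact (infinite_near (hD.nondeg s hs) hzs (hlt w)).mono fun x hx => ⟨hsC hx.1, hx.2⟩
  obtain ⟨q, hqi, hqQ, hqF⟩ := exists_inj _ hinf (finite_range p)
  obtain ⟨m, η, δ, hgood⟩ := exists_good C G (fun w : W => w.1.1) (fun w : W => w.1.2) p q d hp
    (fun w => (hqQ w).1) (fun w => (hqQ w).2) hqi
    (fun w u h => hqF w ⟨u, h.symm⟩)
    (fun w v x hx hlt' => by
      by_cases h : v = w.1.1
      · exact Or.inl h
      · exact Or.inr ((hadj _ _).mpr ⟨fun h' => h h'.symm, Or.inl (hsee w v x hx hlt')⟩))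
  have hcurve : ∀ v, IsCurve (strs m C (fun w : W => w.1.1) p v) := fun v =>
    isCurve_str hgood v (hcomp v)
  choose γ hγ hγr using hcurve
  refine ⟨γ, hγ, fun u v huv => ?_⟩
  rw [hγr, hγr]
  refine hgood.inter_iff hdis ?_ huv
  intro u v h
  obtain ⟨hne', h1 | h1⟩ := (hadj u v).mp h
  · exact ⟨⟨(u, v), hne', h1⟩, Or.inl ⟨rfl, rfl⟩⟩
  · exact ⟨⟨(v, u), hne'.symm, h1⟩, Or.inr ⟨rfl, rfl⟩⟩

end Pool.Agent.ConfStr48
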