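import Pool.Agent.ConfStr48.DefsAll

/-!
# Conflict graphs of drawings which are divided into connected parts
-/

namespace Pool.Agent.ConfStr48

open Set

/-- `G` is (isomorphic to) the conflict graph of a drawing (not necessarily plane) whose segments
are divided into connected parts, for example into the classes of segments which are joined by
common end points: its vertices are in bijection with the parts `K v`, and two vertices are
adjacent iff the two (different) parts conflict. The parts may cross each other. -/
def IsConflictGraphParts {V : Type*} (G : SimpleGraph V) : Prop :=
  ∃ D : Finset (Sym2 Plane), IsDrawing D ∧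
    ∃ K : V → Finset (Sym2 Plane), (∀ v, IsConnected (carrier (K v))) ∧
      (∀ u v, u ≠ v → Disjoint (K u) (K v)) ∧ (∀ s, s ∈ D ↔ ∃ v, s ∈ K v) ∧
      ∀ u v, G.Adj u v ↔ u ≠ v ∧
        (SeesAll D (carrier (K u)) (carrier (K v)) ∨ SeesAll D (carrier (K v)) (carrier (K u)))

end Pool.Agent.ConfStr48
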