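import Pool.Agent.ConfStr48.AllPoints
import Pool.Agent.ConfStr48.DefsParts

/-!
# Drawings which are divided into connected parts, and parts which may cross
-/

namespace Pool.Agent.ConfStr48

open Set Filter Topology

private lemma mem_seg_of_mem {s : Sym2 Plane} {p : Plane} (h : p ∈ s) : p ∈ seg s := by
  induction s using Sym2.inductionOn with
  | hf a b =>
    rw [seg_mk]
    rcases Sym2.mem_iff.mp h with rfl | rfl
    · exact left_mem_segment _ _ _
    · exact right_mem_segment _ _ _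

private lemma finite_special {D : Finset (Sym2 Plane)} (hD : IsDrawing D) :
    (specialPoints D).Finite := by
  classical
  have h1 : (⋃ s ∈ D, {p : Plane | p ∈ s}).Finite := by
    refine D.finite_toSet.biUnion fun s _ => ?_
    induction s using Sym2.inductionOn with
    | hf a b =>
      refine (Set.toFinite {a, b}).subset fun p hp => ?_
      exact Sym2.mem_iff.mp hp
  have h2 : (⋃ s ∈ D, ⋃ t ∈ D, {p : Plane | s ≠ t ∧ p ∈ seg s ∩ seg t}).Finite := by
    refine D.finite_toSet.biUnion fun s hs => D.finite_toSet.biUnion fun t ht => ?_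
    by_cases hst : s = t
    · refine Set.finite_empty.subset fun p hp => absurd hst hp.1
    · by_cases hne : (seg s ∩ seg t).Nonempty
      · obtain ⟨⟨q, hq⟩, -⟩ := hD.inter s hs t ht hst hne
        refine (Set.finite_singleton q).subset fun p hp => ?_
        rw [← hq]
        exact hp.2
      · exact Set.finite_empty.subset fun p hp => absurd ⟨p, hp.2⟩ hne
  refine (h1.union h2).subset ?_
  rintro p (⟨s, hs, hp⟩ | ⟨s, hs, t, ht, hst, hp⟩)
  · exact Or.inl (mem_iUnion₂.mpr ⟨s, hs, hp⟩)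
  · exact Or.inr (mem_iUnion₂.mpr ⟨s, hs, mem_iUnion₂.mpr ⟨t, ht, hst, hp⟩⟩)

/-- Two parts which cross conflict. -/
private lemma sees_of_cross {D : Finset (Sym2 Plane)} (hD : IsDrawing D)
    {K L : Finset (Sym2 Plane)} (hK : K ⊆ D) (hL : L ⊆ D) (hKL : Disjoint K L) {x : Plane}
    (hx : x ∈ carrier K) (hx' : x ∈ carrier L) : SeesAll D (carrier K) (carrier L) := by
  classical
  obtain ⟨s, hs, hxs⟩ := mem_iUnion₂.mp hx
  obtain ⟨t, ht, hxt⟩ := mem_iUnion₂.mp hx'
  have hst : s ≠ t := fun h => Finset.disjoint_left.mp hKL hs (h ▸ ht)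
  have hxsp : x ∈ specialPoints D := Or.inr ⟨s, hK hs, t, hL ht, hst, hxs, hxt⟩
  obtain ⟨e, he, hex⟩ : ∃ e, e ∈ s ∧ e ≠ x := by
    have hnd := hD.nondeg s (hK hs)
    induction s using Sym2.inductionOn with
    | hf a b =>
      by_cases h : a = x
      · refine ⟨b, Sym2.mem_mk_right _ _, fun hb => ?_⟩
        exact hnd (Sym2.mk_isDiag_iff.mpr (h.trans hb.symm))
      · exact ⟨a, Sym2.mem_mk_left _ _, h⟩
  have hfin : (specialPoints D ∩ (carrier K \ {x})).Finite :=
    (finite_special hD).subset inter_subset_left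
  have hne : (specialPoints D ∩ (carrier K \ {x})).Nonempty :=
    ⟨e, Or.inl ⟨s, hK hs, he⟩, mem_iUnion₂.mpr ⟨s, hs, mem_seg_of_mem he⟩, hex⟩
  obtain ⟨a, ⟨ha1, ha2, ha3⟩, hmin⟩ := Set.exists_min_image _ (fun r => dist x r) hfin hne
  refine ⟨x, hxsp, hx, a, ⟨ha1, ha2, ha3, fun r hr hrK hrx => hmin r ⟨hr, hrK, hrx⟩⟩, x, ?_,
    hx', ?_⟩
  · exact mem_iUnion₂.mpr ⟨s, hK hs, hxs⟩
  · rw [dist_self]
    exact dist_pos.mpr (Ne.symm ha3)

variable {V W : Type*} [Fintype W] {m : Motion W} {core : V → Set Plane} {G : SimpleGraph V}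
  {src tgt : W → V} {p q : W → Plane} {d : W → ℝ} {η δ : ℝ}

/-- As `Good.inter_iff`, for cores which may meet if the vertices are adjacent. -/
private theorem inter_iff_cross (h : Good m core G src tgt p q d η δ)
    (hcross : ∀ u v, u ≠ v → (core u ∩ core v).Nonempty → G.Adj u v)
    (hcov : ∀ u v, G.Adj u v → ∃ w, (src w = u ∧ tgt w = v) ∨ (src w = v ∧ tgt w = u))
    {u v : V} (huv : u ≠ v) :
    G.Adj u v ↔ (strs m core src p u ∩ strs m core src p v).Nonempty := by
  constructor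
  · intro hadj
    obtain ⟨w, hw⟩ := hcov u v hadj
    refine ⟨q w, ?_⟩
    rcases hw with ⟨h1, h2⟩ | ⟨h1, h2⟩
    · refine ⟨Or.inr (mem_iUnion.mpr ⟨⟨w, h1⟩, h.end_mem w⟩), Or.inl (h2 ▸ h.hq w)⟩
    · refine ⟨Or.inl (h2 ▸ h.hq w), Or.inr (mem_iUnion.mpr ⟨⟨w, h1⟩, h.end_mem w⟩)⟩
  · rintro ⟨x, hx1 | hx1, hx2 | hx2⟩
    · exact hcross u v huv ⟨x, hx1, hx2⟩
    · obtain ⟨⟨w, hw⟩, hx2⟩ := mem_iUnion.mp hx2
      have := h.core_trail (w := w) (v := u) (by rw [hw]; exact huv) ⟨x, hx1, hx2⟩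
      rw [hw] at this
      exact this.symm
    · obtain ⟨⟨w, hw⟩, hx1⟩ := mem_iUnion.mp hx1
      have := h.core_trail (w := w) (v := v) (by rw [hw]; exact huv.symm) ⟨x, hx2, hx1⟩
      rw [hw] at this
      exact this
    · obtain ⟨⟨w, hw⟩, hx1⟩ := mem_iUnion.mp hx1
      obtain ⟨⟨w', hw'⟩, hx2⟩ := mem_iUnion.mp hx2
      rcases le_total (m.st w) (m.st w') with hle | hle
      · have := h.trail_trail (w := w) (u := w') (by rw [hw, hw']; exact huv) hle ⟨x, hx1, hx2⟩
        rwa [hw, hw'] at this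
      · have := h.trail_trail (w := w') (u := w) (by rw [hw, hw']; exact huv.symm) hle
          ⟨x, hx2, hx1⟩
        rw [hw, hw'] at this
        exact this.symm

private theorem isCurve_str_part (h : Good m core G src tgt p q d η δ) (v : V)
    {K : Finset (Sym2 Plane)} (hK : core v = carrier K) (hcon : IsConnected (core v)) :
    IsCurve (strs m core src p v) := by
  classical
  obtain ⟨x₀, hx₀c⟩ := hcon.nonempty
  have hpre : IsPreconnected (core v) := hcon.isPreconnected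
  let ι := {s : Sym2 Plane // s ∈ K} ⊕ {w : W // src w = v}
  have : Nonempty ι := by
    rw [hK] at hx₀c
    obtain ⟨s, hs, -⟩ := mem_iUnion₂.mp hx₀c
    exact ⟨Sum.inl ⟨s, hs⟩⟩
  let J : ι → Set Plane := Sum.elim (fun s => seg s.1) fun w => m.trail p w.1
  have htr : ∀ w, IsCurve (m.trail p w) := fun w => (isCurve_segment _ _).image (m.fl_cont _ _)
  have hJ : ∀ i, IsCurve (J i) := by
    rintro (s | w)
    · exact isCurve_seg _
    · exact htr _
  have hU : ⋃ i, J i = strs m core src p v := by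
    rw [iUnion_sum]
    show (⋃ s : {s : Sym2 Plane // s ∈ K}, seg s.1) ∪
      (⋃ w : {w : W // src w = v}, m.trail p w.1) = _
    have h1 : (⋃ s : {s : Sym2 Plane // s ∈ K}, seg s.1) = core v := by
      rw [hK]
      ext x
      simp only [carrier, mem_iUnion, Subtype.exists]
    rw [h1]
    rfl
  rw [← hU]
  refine isCurve_iUnion J hJ ?_
  rw [hU]
  refine isPreconnected_of_forall x₀ fun y hy => ?_
  rcases hy with hy | hy
  · exact ⟨core v, subset_union_left, hx₀c, hy, hpre⟩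
  · obtain ⟨w, hw⟩ := mem_iUnion.mp hy
    refine ⟨core v ∪ m.trail p w.1, ?_, Or.inl hx₀c, Or.inr hw, ?_⟩
    · exact union_subset_union_right _ fun z hz => mem_iUnion.mpr ⟨w, hz⟩
    · refine IsPreconnected.union (p w.1) ?_ (h.base_mem w.1) hpre (htr _).isPreconnected
      have := h.hp w.1
      rwa [w.2] at this

omit [Fintype W] in
theorem isStringGraph_of_parts (hG : IsConflictGraphParts G) : IsStringGraph G := by
  classical
  obtain ⟨D, hD, K, hcon, hdisK, hKD, hadj⟩ := hG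
  set C : V → Set Plane := fun v => carrier (K v) with hCdef
  have hsub : ∀ v, K v ⊆ D := fun v s hs => (hKD s).mpr ⟨v, hs⟩
  have hcD : ∀ v, C v ⊆ carrier D := by
    intro v x hx
    obtain ⟨s, hs, hxs⟩ := mem_iUnion₂.mp hx
    exact mem_iUnion₂.mpr ⟨s, hsub v hs, hxs⟩
  have hcross : ∀ u v, u ≠ v → (C u ∩ C v).Nonempty → G.Adj u v := by
    rintro u v huv ⟨x, hx, hx'⟩
    exact (hadj u v).mpr ⟨huv, Or.inl (sees_of_cross hD (hsub u) (hsub v) (hdisK u v huv) hx hx')⟩
  have hfin : Finite V := by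
    have h1 : ∀ v, ∃ s : {s // s ∈ D}, s.1 ∈ K v := by
      intro v
      obtain ⟨x, hx⟩ := (hcon v).nonempty
      obtain ⟨s, hs, -⟩ := mem_iUnion₂.mp hx
      exact ⟨⟨s, hsub v hs⟩, hs⟩
    choose f hf using h1
    refine Finite.of_injective f fun u v huv => ?_
    by_contra hne
    exact Finset.disjoint_left.mp (hdisK u v hne) (hf u) (huv ▸ hf v)
  -- the whiskers
  let W := {e : V × V // e.1 ≠ e.2 ∧ SeesAll D (C e.1) (C e.2)}
  have : Fintype V := Fintype.ofFinite V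
  have : Fintype W := Fintype.ofFinite W
  have hW : ∀ w : W, ∃ (p : Plane) (r : ℝ) (z : Plane), p ∈ C w.1.1 ∧ z ∈ C w.1.2 ∧ dist p z < r ∧
      ∀ v x, x ∈ C v → dist p x < r → SeesAll D (C w.1.1) (C v) := by
    intro w
    obtain ⟨p, hp, hpC, a, ha, z, hzD, hz, hlt⟩ := w.2.2
    exact ⟨p, dist p a, z, hpC, hz, hlt, fun v x hx hlt' =>
      ⟨p, hp, hpC, a, ha, x, hcD v hx, hx, hlt'⟩⟩
  choose p d z hp hz hlt hsee using hW
  have hinf : ∀ w : W, {x | x ∈ C w.1.2 ∧ dist (p w) x < d w}.Infinite := by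
    intro w
    obtain ⟨s, hs, hzs⟩ := mem_iUnion₂.mp (hz w)
    refine (infinite_near (hD.nondeg s (hsub _ hs)) hzs (hlt w)).mono fun x hx => ⟨?_, hx.2⟩
    exact mem_iUnion₂.mpr ⟨s, hs, hx.1⟩
  obtain ⟨q, hqi, hqQ, hqF⟩ := exists_inj _ hinf (finite_range p)
  obtain ⟨m, η, δ, hgood⟩ := exists_good C G (fun w : W => w.1.1) (fun w : W => w.1.2) p q d hp
    (fun w => (hqQ w).1) (fun w => (hqQ w).2) hqi
    (fun w u h => hqF w ⟨u, h.symm⟩)
    (fun w v x hx hlt' => by
      by_cases h : v = w.1.1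
      · exact Or.inl h
      · exact Or.inr ((hadj _ _).mpr ⟨fun h' => h h'.symm, Or.inl (hsee w v x hx hlt')⟩))
  have hcurve : ∀ v, IsCurve (strs m C (fun w : W => w.1.1) p v) := fun v =>
    isCurve_str_part hgood v rfl (hcon v)
  choose γ hγ hγr using hcurve
  refine ⟨γ, hγ, fun u v huv => ?_⟩
  rw [hγr, hγr]
  refine inter_iff_cross hgood hcross ?_ huv
  intro u v h
  obtain ⟨hne', h1 | h1⟩ := (hadj u v).mp h
  · exact ⟨⟨(u, v), hne', h1⟩, Or.inl ⟨rfl, rfl⟩⟩
  · exact ⟨⟨(v, u), hne'.symm, h1⟩, Or.inr ⟨rfl, rfl⟩⟩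

end Pool.Agent.ConfStr48
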