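import Pool.Agent.ConfStr48.Strings

/-!
# Curves in the plane
-/

namespace Pool.Agent.ConfStr48

open Set

/-- `K` is the image of a curve. -/
def IsCurve (K : Set Plane) : Prop := ∃ γ : unitInterval → Plane, Continuous γ ∧ range γ = K

lemma IsCurve.isCompact {K : Set Plane} (h : IsCurve K) : IsCompact K := by
  obtain ⟨γ, hγ, rfl⟩ := h
  exact isCompact_range hγ

lemma IsCurve.isPreconnected {K : Set Plane} (h : IsCurve K) : IsPreconnected K := by
  obtain ⟨γ, hγ, rfl⟩ := h
  exact isPreconnected_range hγ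

lemma IsCurve.nonempty {K : Set Plane} (h : IsCurve K) : K.Nonempty := by
  obtain ⟨γ, hγ, rfl⟩ := h
  exact range_nonempty γ

lemma IsCurve.image {K : Set Plane} (h : IsCurve K) {f : Plane → Plane} (hf : Continuous f) :
    IsCurve (f '' K) := by
  obtain ⟨γ, hγ, rfl⟩ := h
  exact ⟨f ∘ γ, hf.comp hγ, range_comp f γ⟩

lemma isCurve_segment (a b : Plane) : IsCurve (segment ℝ a b) := by
  refine ⟨fun t => AffineMap.lineMap a b (t : ℝ), ?_, ?_⟩
  · exact (AffineMap.lineMap_continuous).comp continuous_subtype_val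
  · rw [segment_eq_image_lineMap]
    ext x
    simp only [mem_range, mem_image]
    constructor
    · rintro ⟨t, rfl⟩
      exact ⟨t, t.2, rfl⟩
    · rintro ⟨t, ht, rfl⟩
      exact ⟨⟨t, ht⟩, rfl⟩

lemma pathConnected_unitInterval : PathConnectedSpace unitInterval :=
  isPathConnected_iff_pathConnectedSpace.mp
    ((convex_Icc (0 : ℝ) 1).isPathConnected ⟨0, by simp⟩)

lemma IsCurve.union {K K' : Set Plane} (h : IsCurve K) (h' : IsCurve K')
    (hne : (K ∩ K').Nonempty) : IsCurve (K ∪ K') := by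
  obtain ⟨γ, hγ, rfl⟩ := h
  obtain ⟨γ', hγ', rfl⟩ := h'
  obtain ⟨c, hc, hc'⟩ := hne
  have := pathConnected_unitInterval
  have h1 : JoinedIn (range γ) (γ 0) c :=
    (isPathConnected_range hγ).joinedIn _ (mem_range_self _) _ hc
  have h2 : JoinedIn (range γ') c (γ' 0) :=
    (isPathConnected_range hγ').joinedIn _ hc' _ (mem_range_self _)
  let a : Path (γ 0) (γ 1) := ⟨⟨γ, hγ⟩, rfl, rfl⟩
  let b : Path (γ' 0) (γ' 1) := ⟨⟨γ', hγ'⟩, rfl, rfl⟩
  have ha : range a = range γ := rfl
  have hb : range b = range γ' := rfl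
  have e1 : range h1.somePath ⊆ range γ := by
    rintro _ ⟨t, rfl⟩
    exact h1.somePath_mem t
  have e2 : range h2.somePath ⊆ range γ' := by
    rintro _ ⟨t, rfl⟩
    exact h2.somePath_mem t
  let P := ((a.trans a.symm).trans h1.somePath).trans (h2.somePath.trans b)
  refine ⟨P, P.continuous, ?_⟩
  show range (((a.trans a.symm).trans h1.somePath).trans (h2.somePath.trans b)) = _
  rw [Path.trans_range, Path.trans_range, Path.trans_range, Path.trans_range, Path.symm_range, ha,
    hb, union_self, union_eq_left.mpr e1, union_eq_right.mpr e2]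

theorem isCurve_iUnion {ι : Type*} [Finite ι] [Nonempty ι] (K : ι → Set Plane)
    (hK : ∀ i, IsCurve (K i)) (hc : IsPreconnected (⋃ i, K i)) : IsCurve (⋃ i, K i) := by
  classical
  have := Fintype.ofFinite ι
  let S := (Finset.univ : Finset (Finset ι)).filter fun T => T.Nonempty ∧ IsCurve (⋃ i ∈ T, K i)
  have hS : S.Nonempty := by
    obtain ⟨i⟩ := ‹Nonempty ι›
    refine ⟨{i}, Finset.mem_filter.mpr ⟨Finset.mem_univ _, Finset.singleton_nonempty _, ?_⟩⟩
    simpa using hK i
  obtain ⟨T, hT, hmax⟩ := Finset.exists_max_image S Finset.card hS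
  obtain ⟨-, hTne, hTc⟩ := Finset.mem_filter.mp hT
  by_cases hTu : T = Finset.univ
  · rw [hTu] at hTc
    simpa using hTc
  exfalso
  obtain ⟨j₀, hj₀⟩ : ∃ j, j ∉ T := by
    by_contra hcon
    push Not at hcon
    exact hTu (Finset.eq_univ_of_forall hcon)
  obtain ⟨i₀, hi₀⟩ := hTne
  have hA : IsClosed (⋃ i ∈ T, K i) := hTc.isCompact.isClosed
  have hB : IsClosed (⋃ i ∈ Tᶜ, K i) :=
    isClosed_biUnion_finset fun i _ => (hK i).isCompact.isClosed
  have hcover : (⋃ i, K i) ⊆ (⋃ i ∈ T, K i) ∪ ⋃ i ∈ Tᶜ, K i := by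
    intro x hx
    obtain ⟨i, hi⟩ := mem_iUnion.mp hx
    by_cases h : i ∈ T
    · exact Or.inl (mem_iUnion₂.mpr ⟨i, h, hi⟩)
    · exact Or.inr (mem_iUnion₂.mpr ⟨i, Finset.mem_compl.mpr h, hi⟩)
  obtain ⟨x, hx, hxA, hxB⟩ := isPreconnected_closed_iff.mp hc _ _ hA hB hcover
    (by
      obtain ⟨x, hx⟩ := (hK i₀).nonempty
      exact ⟨x, mem_iUnion.mpr ⟨i₀, hx⟩, mem_iUnion₂.mpr ⟨i₀, hi₀, hx⟩⟩)
    (by
      obtain ⟨x, hx⟩ := (hK j₀).nonempty
      exact ⟨x, mem_iUnion.mpr ⟨j₀, hx⟩, mem_iUnion₂.mpr ⟨j₀, Finset.mem_compl.mpr hj₀, hx⟩⟩)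
  obtain ⟨j, hj, hxj⟩ := mem_iUnion₂.mp hxB
  have hjT : j ∉ T := Finset.mem_compl.mp hj
  have hnew : insert j T ∈ S := by
    refine Finset.mem_filter.mpr ⟨Finset.mem_univ _, Finset.insert_nonempty _ _, ?_⟩
    rw [Finset.set_biUnion_insert]
    exact (hK j).union hTc ⟨x, hxj, hxA⟩
  have := hmax _ hnew
  rw [Finset.card_insert_of_notMem hjT] at this
  omega

lemma isCurve_seg (s : Sym2 Plane) : IsCurve (seg s) := by
  induction s using Sym2.inductionOn with
  | hf a b =>
    have : seg s(a, b) = segment ℝ a b := by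
      ext x
      constructor
      · rintro ⟨c, d, h, hx⟩
        rcases Sym2.eq_iff.mp h with ⟨rfl, rfl⟩ | ⟨rfl, rfl⟩
        · exact hx
        · rwa [segment_symm]
      · exact fun hx => ⟨a, b, rfl, hx⟩
    rw [this]
    exact isCurve_segment a b

/-- A component is the union of the segments contained in it. -/
lemma component_eq {D : Finset (Sym2 Plane)} {C : Set Plane} (hC : IsComponent D C) :
    C = ⋃ s : {s : Sym2 Plane // s ∈ D ∧ seg s ⊆ C}, seg s.1 := by
  obtain ⟨x, hx, rfl⟩ := hC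
  ext y
  constructor
  · intro hy
    have hyD : y ∈ carrier D := connectedComponentIn_subset _ _ hy
    obtain ⟨s, hs, hys⟩ := mem_iUnion₂.mp hyD
    refine mem_iUnion.mpr ⟨⟨s, hs, ?_⟩, hys⟩
    have h1 : seg s ⊆ connectedComponentIn (carrier D) y :=
      (isCurve_seg s).isPreconnected.subset_connectedComponentIn hys fun z hz =>
        mem_iUnion₂.mpr ⟨s, hs, hz⟩
    rwa [← connectedComponentIn_eq hy] at h1
  · intro hy
    obtain ⟨⟨s, hs, hsC⟩, hys⟩ := mem_iUnion.mp hy
    exact hsC hys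

theorem isCurve_str {D : Finset (Sym2 Plane)} {V W : Type*} [Fintype W] {m : Motion W}
    {core : V → Set Plane} {G : SimpleGraph V} {src tgt : W → V} {p q : W → Plane} {d : W → ℝ}
    {η δ : ℝ} (h : Good m core G src tgt p q d η δ) (v : V) (hv : IsComponent D (core v)) :
    IsCurve (strs m core src p v) := by
  classical
  have hcomp := component_eq hv
  obtain ⟨x₀, hx₀, hx₀e⟩ := id hv
  have hx₀c : x₀ ∈ core v := by rw [hx₀e]; exact mem_connectedComponentIn hx₀
  have hpre : IsPreconnected (core v) := by rw [hx₀e]; exact isPreconnected_connectedComponentIn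
  set ι := {s : Sym2 Plane // s ∈ D ∧ seg s ⊆ core v} ⊕ {w : W // src w = v} with hι
  have : Finite {s : Sym2 Plane // s ∈ D ∧ seg s ⊆ core v} :=
    Set.Finite.subset D.finite_toSet (fun s hs => hs.1)
  have : Finite ι := by rw [hι]; infer_instance
  have : Nonempty ι := by
    rw [hcomp] at hx₀c
    obtain ⟨s, -⟩ := mem_iUnion.mp hx₀c
    exact ⟨Sum.inl s⟩
  let K : ι → Set Plane := Sum.elim (fun s => seg s.1) fun w => m.trail p w.1
  have htr : ∀ w, IsCurve (m.trail p w) := fun w => (isCurve_segment _ _).image (m.fl_cont _ _)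
  have hK : ∀ i, IsCurve (K i) := by
    rintro (s | w)
    · exact isCurve_seg _
    · exact htr _
  have hU : ⋃ i, K i = strs m core src p v := by
    rw [iUnion_sum]
    show (⋃ s : {s : Sym2 Plane // s ∈ D ∧ seg s ⊆ core v}, seg s.1) ∪
      (⋃ w : {w : W // src w = v}, m.trail p w.1) = _
    rw [← hcomp]
    rfl
  rw [← hU]
  refine isCurve_iUnion K hK ?_
  rw [hU]
  refine isPreconnected_of_forall x₀ fun y hy => ?_
  rcases hy with hy | hy
  · exact ⟨core v, subset_union_left, hx₀c, hy, hpre⟩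
  · obtain ⟨w, hw⟩ := mem_iUnion.mp hy
    refine ⟨core v ∪ m.trail p w.1, ?_, Or.inl hx₀c, Or.inr hw, ?_⟩
    · exact union_subset_union_right _ fun z hz => mem_iUnion.mpr ⟨w, hz⟩
    · refine IsPreconnected.union (p w.1) ?_ (h.base_mem w.1) hpre (htr _).isPreconnected
      have := h.hp w.1
      rwa [w.2] at this

end Pool.Agent.ConfStr48
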