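import Mathlib

/-!
# Conflict graphs of plane drawings and string graphs: definitions
-/

namespace Pool.Agent.ConfStr48

open Set

/-- The Euclidean plane. -/
abbrev Plane := EuclideanSpace ℝ (Fin 2)

/-- The closed straight-line segment whose two end points form the unordered pair `s`. -/
def seg (s : Sym2 Plane) : Set Plane := {x | ∃ a b : Plane, s = s(a, b) ∧ x ∈ segment ℝ a b}

/-- Two segments are parallel: the vector between the end points of the first is a multiple of the
vector between the end points of the second. -/
def Parallel (s t : Sym2 Plane) : Prop :=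
  ∃ a b c d : Plane, s = s(a, b) ∧ t = s(c, d) ∧ ∃ r : ℝ, b - a = r • (d - c)

/-- The special points of a finite set of segments: the end points of the segments, and the points
in which two different segments intersect. -/
def specialPoints (D : Finset (Sym2 Plane)) : Set Plane :=
  {p | (∃ s ∈ D, p ∈ s) ∨ ∃ s ∈ D, ∃ t ∈ D, s ≠ t ∧ p ∈ seg s ∩ seg t}

/-- A drawing: a finite set of segments (the two end points of each segment are different) such
that any two different segments which intersect meet in a single point and are not parallel, and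
such that all distances between two special points are different. -/
structure IsDrawing (D : Finset (Sym2 Plane)) : Prop where
  nondeg : ∀ s ∈ D, ¬ s.IsDiag
  inter : ∀ s ∈ D, ∀ t ∈ D, s ≠ t → (seg s ∩ seg t).Nonempty →
    (∃ p, seg s ∩ seg t = {p}) ∧ ¬ Parallel s t
  dist_ne : ∀ p ∈ specialPoints D, ∀ q ∈ specialPoints D, ∀ p' ∈ specialPoints D,
    ∀ q' ∈ specialPoints D, p ≠ q → p' ≠ q' → dist p q = dist p' q' → s(p, q) = s(p', q')

/-- A drawing is plane if a special point which lies on a segment is one of its end points. -/
def IsPlane (D : Finset (Sym2 Plane)) : Prop :=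
  ∀ s ∈ D, ∀ p ∈ specialPoints D, p ∈ seg s → p ∈ s

/-- The drawing as a subset of the plane. -/
def carrier (D : Finset (Sym2 Plane)) : Set Plane := ⋃ s ∈ D, seg s

/-- `C` is a connected component of the drawing, regarded as a subset of the plane. -/
def IsComponent (D : Finset (Sym2 Plane)) (C : Set Plane) : Prop :=
  ∃ x ∈ carrier D, C = connectedComponentIn (carrier D) x

/-- `a` is the special point of `C \ {p}` nearest to `p`. -/
def IsNearest (D : Finset (Sym2 Plane)) (C : Set Plane) (p a : Plane) : Prop :=
  a ∈ specialPoints D ∧ a ∈ C ∧ a ≠ p ∧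
    ∀ r ∈ specialPoints D, r ∈ C → r ≠ p → dist p a ≤ dist p r

/-- Some special point `p ∈ C` has `b(p) ∩ C' ≠ ∅`, where `b(p)` is the set of special points at
distance strictly less than `dist p a(p)` from `p`. -/
def Sees (D : Finset (Sym2 Plane)) (C C' : Set Plane) : Prop :=
  ∃ p ∈ specialPoints D, p ∈ C ∧ ∃ a, IsNearest D C p a ∧
    ∃ q ∈ specialPoints D, q ∈ C' ∧ dist p q < dist p a

/-- `G` is (isomorphic to) the conflict graph of a plane drawing: its vertices are in bijection with
the connected components of the drawing, and two vertices are adjacent iff the two (different)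
components conflict. -/
def IsConflictGraph {V : Type*} (G : SimpleGraph V) : Prop :=
  ∃ D : Finset (Sym2 Plane), IsDrawing D ∧ IsPlane D ∧
    ∃ C : V → Set Plane, Function.Injective C ∧ (∀ K, IsComponent D K ↔ ∃ v, K = C v) ∧
      ∀ u v, G.Adj u v ↔ u ≠ v ∧ (Sees D (C u) (C v) ∨ Sees D (C v) (C u))

/-- `G` is a string graph: the intersection graph of curves in the plane. -/
def IsStringGraph {V : Type*} (G : SimpleGraph V) : Prop :=
  ∃ γ : V → unitInterval → Plane, (∀ v, Continuous (γ v)) ∧
    ∀ u v, u ≠ v → (G.Adj u v ↔ (range (γ u) ∩ range (γ v)).Nonempty)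

/-- The ten edges of `K₅`. -/
def ends : Fin 10 → Fin 5 × Fin 5 :=
  ![(0, 1), (0, 2), (0, 3), (0, 4), (1, 2), (1, 3), (1, 4), (2, 3), (2, 4), (3, 4)]

/-- The graph obtained from `K₅` by subdividing every edge once: the vertices `inl 0, …, inl 4` are
those of `K₅`, and `inr m` is the new vertex on the `m`-th edge of `K₅`. -/
def subdividedK5 : SimpleGraph (Fin 5 ⊕ Fin 10) where
  Adj
    | .inl i, .inr m => i = (ends m).1 ∨ i = (ends m).2
    | .inr m, .inl i => i = (ends m).1 ∨ i = (ends m).2
    | _, _ => False
  symm := ⟨by rintro (i | m) (j | n) h <;> exact h⟩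
  loopless := ⟨by rintro (i | m) h <;> exact h⟩

end Pool.Agent.ConfStr48
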