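import Pool.Agent.ConfStr48.Generic

/-!
# The discrete motion of the tips
-/

namespace Pool.Agent.ConfStr48

open Set Filter Topology

lemma exists_pos_forall {ι : Type*} [Finite ι] (P : ι → ℝ → Prop)
    (hmono : ∀ i r r', P i r → 0 < r' → r' ≤ r → P i r') (h : ∀ i, ∃ r > 0, P i r) :
    ∃ r > 0, ∀ i, P i r := by
  have h1 : ∀ i, ∀ᶠ r in 𝓝[>] (0 : ℝ), P i r := by
    intro i
    obtain ⟨r₀, hr₀, hP⟩ := h i
    filter_upwards [Ioo_mem_nhdsGT hr₀] with r hr
    exact hmono i r₀ r hP hr.1 hr.2.le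
  obtain ⟨r, hr, hr'⟩ := ((eventually_all.mpr h1).and self_mem_nhdsWithin).exists
  exact ⟨r, hr', hr⟩

lemma isCompact_segment' (a b : ST) : IsCompact (segment ℝ a b) := by
  rw [segment_eq_image_lineMap]
  exact isCompact_Icc.image AffineMap.lineMap_continuous

/-- The position at time `t` of a tip which moves from `y` at time `s < 0` to `q` at time `0`. -/
noncomputable def pos (y q : Plane) (s t : ℝ) : Plane := (t / s) • y + (1 - t / s) • q

lemma pos_mem {y q : Plane} {s t : ℝ} (hs : s < 0) (h1 : s ≤ t) (h2 : t ≤ 0) :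
    ((pos y q s t, t) : ST) ∈ segment ℝ ((q, 0) : ST) ((y, s) : ST) := by
  have h3 : 0 ≤ t / s := div_nonneg_of_nonpos h2 hs.le
  have h4 : t / s ≤ 1 := (div_le_one_of_neg hs).mpr h1
  refine ⟨1 - t / s, t / s, by linarith, h3, by ring, ?_⟩
  rw [Prod.smul_mk, Prod.smul_mk, Prod.mk_add_mk]
  refine Prod.ext ?_ ?_
  · show _ = pos y q s t
    unfold pos
    exact add_comm _ _
  · show (1 - t / s) • (0 : ℝ) + (t / s) • s = t
    rw [smul_zero, zero_add, smul_eq_mul, div_mul_cancel₀ _ hs.ne]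

lemma pos_start {y q : Plane} {s : ℝ} (hs : s < 0) : pos y q s s = y := by
  unfold pos
  rw [div_self hs.ne, sub_self, zero_smul, one_smul, add_zero]

lemma pos_end {y q : Plane} {s : ℝ} : pos y q s 0 = q := by
  unfold pos
  rw [zero_div, sub_zero, zero_smul, one_smul, zero_add]

lemma pos_lip {y q : Plane} {s : ℝ} (hs : s < 0) (h : dist y q ≤ -s) (t t' : ℝ) :
    dist (pos y q s t) (pos y q s t') ≤ |t - t'| := by
  have h1 : pos y q s t - pos y q s t' = ((t - t') / s) • (y - q) := by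
    unfold pos
    rw [sub_div]
    module
  rw [dist_eq_norm, h1, norm_smul, Real.norm_eq_abs, abs_div, abs_of_neg hs, ← dist_eq_norm]
  calc |t - t'| / -s * dist y q ≤ |t - t'| / -s * -s := by
        refine mul_le_mul_of_nonneg_left h (div_nonneg (abs_nonneg _) (by linarith))
    _ = |t - t'| := by rw [div_mul_cancel₀]; linarith

theorem exists_good {V W : Type*} [Fintype W] (core : V → Set Plane) (G : SimpleGraph V)
    (src tgt : W → V) (p q : W → Plane) (d : W → ℝ) (hp : ∀ w, p w ∈ core (src w))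
    (hq : ∀ w, q w ∈ core (tgt w)) (hd : ∀ w, dist (p w) (q w) < d w)
    (hqi : Function.Injective q) (hqp : ∀ w u, q w ≠ p u)
    (hns : ∀ w v x, x ∈ core v → dist (p w) x < d w → v = src w ∨ G.Adj (src w) v) :
    ∃ (m : Motion W) (η δ : ℝ), Good m core G src tgt p q d η δ := by
  classical
  -- the margin
  obtain ⟨δ, hδ, hδd⟩ : ∃ δ > 0, ∀ w, dist (p w) (q w) + 5 * δ < d w := by
    refine exists_pos_forall (fun w δ => dist (p w) (q w) + 5 * δ < d w) ?_ ?_
    · intro w r r' h1 _ h3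
      linarith
    · intro w
      refine ⟨(d w - dist (p w) (q w)) / 6, by linarith [hd w], ?_⟩
      linarith [hd w]
  -- the starting points
  obtain ⟨a, haU, hline, hseg⟩ := exists_starts p q
    (fun w => Metric.ball (p w) (δ / 2) ×ˢ Ioo (3 * δ - d w) (-(dist (p w) (q w) + δ)))
    (fun w => Metric.isOpen_ball.prod isOpen_Ioo)
    (fun w => (Metric.nonempty_ball.mpr (by positivity)).prod
      (nonempty_Ioo.mpr (by linarith [hδd w])))
    (fun w a ha => by
      have h1 : a.2 < -(dist (p w) (q w) + δ) := ha.2.2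
      have h2 : 0 ≤ dist (p w) (q w) := dist_nonneg
      linarith) hqi hqp
  set y : W → Plane := fun w => (a w).1 with hy
  set s : W → ℝ := fun w => (a w).2 with hs
  have hyp : ∀ w, dist (y w) (p w) < δ / 2 := fun w => (haU w).1
  have hs1 : ∀ w, 3 * δ - d w < s w := fun w => (haU w).2.1
  have hs2 : ∀ w, s w < -(dist (p w) (q w) + δ) := fun w => (haU w).2.2
  have hs0 : ∀ w, s w < 0 := fun w => by
    have h1 := hs2 w
    have h2 : 0 ≤ dist (p w) (q w) := dist_nonneg
    linarith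
  have hspeed : ∀ w, dist (y w) (q w) ≤ -s w := fun w => by
    have h1 := dist_triangle (y w) (p w) (q w)
    have h2 := hyp w
    have h3 := hs2 w
    linarith
  have haw : ∀ w, a w = (y w, s w) := fun w => rfl
  have hmem : ∀ w t, s w ≤ t → t ≤ 0 → ((pos (y w) (q w) (s w) t, t) : ST) ∈
      segment ℝ ((q w, 0) : ST) (a w) := fun w t h1 h2 => by
    rw [haw]
    exact pos_mem (hs0 w) h1 h2
  -- the separation
  obtain ⟨r₁, hr₁, hsep⟩ : ∃ r > 0, ∀ wu : W × W, wu.1 ≠ wu.2 →
      ∀ x ∈ segment ℝ ((q wu.1, 0) : ST) (a wu.1), ∀ x' ∈ segment ℝ ((q wu.2, 0) : ST) (a wu.2),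
        r ≤ dist x x' := by
    refine exists_pos_forall (fun (wu : W × W) r => wu.1 ≠ wu.2 →
      ∀ x ∈ segment ℝ ((q wu.1, 0) : ST) (a wu.1), ∀ x' ∈ segment ℝ ((q wu.2, 0) : ST) (a wu.2),
        r ≤ dist x x') ?_ ?_
    · intro wu r r' h1 _ h3 hne x hx x' hx'
      exact h3.trans (h1 hne x hx x' hx')
    · rintro ⟨w, u⟩
      by_cases hne : w = u
      · exact ⟨1, one_pos, fun h => absurd hne h⟩
      · obtain ⟨r, hr, h⟩ := Metric.exists_pos_forall_lt_edist (isCompact_segment' _ _)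
          (isCompact_segment' _ _).isClosed (hseg w u hne)
        refine ⟨r, hr, fun _ x hx x' hx' => ?_⟩
        have h1 := h x hx x' hx'
        rw [edist_nndist, ENNReal.coe_lt_coe] at h1
        exact_mod_cast h1.le
  obtain ⟨r₂, hr₂, hbase⟩ : ∃ r > 0, ∀ wu : W × W,
      ∀ x ∈ segment ℝ ((q wu.1, 0) : ST) (a wu.1), ∀ t : ℝ, r ≤ dist x ((p wu.2, t) : ST) := by
    refine exists_pos_forall (fun (wu : W × W) r =>
      ∀ x ∈ segment ℝ ((q wu.1, 0) : ST) (a wu.1), ∀ t : ℝ, r ≤ dist x ((p wu.2, t) : ST)) ?_ ?_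
    · intro wu r r' h1 _ h3 x hx t
      exact h3.trans (h1 x hx t)
    · rintro ⟨w, u⟩
      have hcl : IsClosed {z : ST | z.1 = p u} := isClosed_eq continuous_fst continuous_const
      have hdj : Disjoint (segment ℝ ((q w, 0) : ST) (a w)) {z : ST | z.1 = p u} := by
        rw [Set.disjoint_left]
        rintro ⟨x, t⟩ hz hz'
        have hx : x = p u := hz'
        rw [hx] at hz
        exact hline w u t hz
      obtain ⟨r, hr, h⟩ := Metric.exists_pos_forall_lt_edist (isCompact_segment' _ _) hcl hdj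
      refine ⟨r, hr, fun x hx t => ?_⟩
      have h1 := h x hx ((p u, t) : ST) rfl
      rw [edist_nndist, ENNReal.coe_lt_coe] at h1
      exact_mod_cast h1.le
  obtain ⟨ρ, hρ, hρ₁, hρ₂⟩ : ∃ ρ > 0, 2 * ρ ≤ r₁ ∧ ρ ≤ r₂ :=
    ⟨min (r₁ / 2) r₂, by positivity, by
      have := min_le_left (r₁ / 2) r₂
      linarith, min_le_right _ _⟩
  -- the grid
  obtain ⟨A, hA, hAs⟩ : ∃ A > 0, ∀ w, -s w ≤ A := by
    refine ⟨1 + ∑ w, -s w, ?_, ?_⟩
    · have : 0 ≤ ∑ w, -s w := Finset.sum_nonneg fun w _ => by linarith [hs0 w]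
      linarith
    · intro w
      have : -s w ≤ ∑ w, -s w :=
        Finset.single_le_sum (f := fun w => -s w) (fun u _ => by linarith [hs0 u])
          (Finset.mem_univ w)
      linarith
  obtain ⟨N, hN⟩ := exists_nat_gt (A * (Fintype.card W + 1) / min ρ (δ / 2))
  have hmin : 0 < min ρ (δ / 2) := by positivity
  have hN0 : 0 < (N : ℝ) := lt_of_le_of_lt (by positivity) hN
  set τ : ℝ := A / N with hτ
  have hτ0 : 0 < τ := by positivity
  have hτN : N * τ = A := by rw [hτ]; field_simp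
  have hτs : (Fintype.card W + 1) * τ < min ρ (δ / 2) := by
    rw [div_lt_iff₀ hmin] at hN
    rw [hτ, ← mul_div_assoc, div_lt_iff₀ hN0]
    linarith
  have hcard : (0 : ℝ) ≤ Fintype.card W := Nat.cast_nonneg _
  have hτρ : Fintype.card W * τ < ρ := by
    have h1 := min_le_left ρ (δ / 2)
    nlinarith
  have hτδ : τ ≤ δ / 2 := by
    have h1 := min_le_right ρ (δ / 2)
    nlinarith
  set T : ℕ → ℝ := fun k => -A + k * τ with hT
  have hT0 : ∀ k ≤ N, T k ≤ 0 := by
    intro k hk
    have : (k : ℝ) * τ ≤ N * τ := mul_le_mul_of_nonneg_right (by exact_mod_cast hk) hτ0.le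
    rw [hT]
    linarith
  set st : W → ℕ := fun w => ⌈(s w + A) / τ⌉₊ with hst
  have hst1 : ∀ w k, st w ≤ k → s w ≤ T k := by
    intro w k hk
    have h1 : (s w + A) / τ ≤ k := (Nat.le_ceil _).trans (by exact_mod_cast hk)
    rw [div_le_iff₀ hτ0] at h1
    rw [hT]
    linarith
  have hst2 : ∀ w, T (st w) ≤ s w + τ := by
    intro w
    have h1 : (st w : ℝ) < (s w + A) / τ + 1 :=
      Nat.ceil_lt_add_one (div_nonneg (by linarith [hAs w]) hτ0.le)
    have h2 : (st w : ℝ) * τ < ((s w + A) / τ + 1) * τ := mul_lt_mul_of_pos_right h1 hτ0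
    rw [add_mul, div_mul_cancel₀ _ hτ0.ne', one_mul] at h2
    rw [hT]
    linarith
  have hstN : ∀ w, st w ≤ N := by
    intro w
    refine Nat.ceil_le.mpr ?_
    rw [div_le_iff₀ hτ0, hτN]
    linarith [hs0 w]
  have hTstep : ∀ k, |T (k + 1) - T k| = τ := by
    intro k
    have : T (k + 1) - T k = τ := by
      simp only [hT]
      push_cast
      ring
    rw [this, abs_of_pos hτ0]
  have hclock : ∀ w, ((N - st w : ℕ) : ℝ) * τ ≤ -s w := by
    intro w
    have h2 : ((N - st w : ℕ) : ℝ) = N - st w := by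
      rw [Nat.cast_sub (hstN w)]
    have h3 : s w ≤ -A + (st w : ℝ) * τ := hst1 w (st w) le_rfl
    rw [h2, sub_mul, hτN]
    linarith
  have hTN : T N = 0 := by
    show -A + (N : ℝ) * τ = 0
    rw [hτN]
    ring
  have hbudlen : ∀ w, dist (p w) (pos (y w) (q w) (s w) (T (st w))) ≤ δ := by
    intro w
    have h1 := pos_lip (hs0 w) (hspeed w) (s w) (T (st w))
    rw [pos_start (hs0 w)] at h1
    have h2 : |s w - T (st w)| ≤ τ := by
      rw [abs_le]
      constructor
      · linarith [hst2 w]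
      · linarith [hst1 w (st w) le_rfl]
    have h3 := dist_triangle (p w) (y w) (pos (y w) (q w) (s w) (T (st w)))
    have h4 := hyp w
    rw [dist_comm] at h4
    linarith
  have hsep' : ∀ w u k, w ≠ u → st w ≤ k → st u ≤ k → k ≤ N →
      2 * ρ ≤ dist (pos (y w) (q w) (s w) (T k)) (pos (y u) (q u) (s u) (T k)) := by
    intro w u k hwu hw hu hk
    have h1 := hsep (w, u) hwu _ (hmem w (T k) (hst1 w k hw) (hT0 k hk)) _
      (hmem u (T k) (hst1 u k hu) (hT0 k hk))
    rw [Prod.dist_eq, dist_self, max_eq_left dist_nonneg] at h1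
    exact hρ₁.trans h1
  have hbase' : ∀ w u k, st u ≤ k → k ≤ N →
      ρ ≤ dist (p w) (pos (y u) (q u) (s u) (T k)) := by
    intro w u k hu hk
    have h1 := hbase (u, w) _ (hmem u (T k) (hst1 u k hu) (hT0 k hk)) (T k)
    rw [Prod.dist_eq, dist_self, max_eq_left dist_nonneg, dist_comm] at h1
    exact hρ₂.trans h1
  clear_value τ T st
  let m : Motion W :=
    { N := N
      P := fun w k => pos (y w) (q w) (s w) (T k)
      st := st
      ρ := ρ
      τ := τ
      hρ := hρ
      hτ := hτ0.le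
      hsmall := hτρ
      hstep := fun w k _ => by
        rw [← dist_eq_norm, ← hTstep k]
        exact pos_lip (hs0 w) (hspeed w) _ _
      hsep := hsep'
      hst := hstN }
  refine ⟨m, 2 * δ, δ, ⟨hp, hq, ?_, hns, ?_, by linarith, ?_, hbase'⟩⟩
  · intro w
    show pos (y w) (q w) (s w) (T N) = q w
    rw [hTN]
    exact pos_end
  · intro w z hz
    have hz' : z ∈ segment ℝ (p w) (pos (y w) (q w) (s w) (T (st w))) := hz
    rw [segment_eq_image_lineMap] at hz'
    obtain ⟨l, hl, rfl⟩ := hz'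
    rw [dist_left_lineMap, Real.norm_eq_abs, abs_of_nonneg hl.1]
    calc l * dist (p w) (pos (y w) (q w) (s w) (T (st w))) ≤ 1 * δ :=
          mul_le_mul hl.2 (hbudlen w) dist_nonneg zero_le_one
      _ = δ := one_mul _
  · intro w
    show δ + (2 * δ + ((N - st w : ℕ) : ℝ) * τ) ≤ d w
    linarith [hs1 w, hclock w]

end Pool.Agent.ConfStr48
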