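import Pool.Agent.ConfStr48.Data

/-!
# An explicit plane drawing whose conflict graph is the subdivided `K₅`
-/

namespace Pool.Agent.ConfStr48

open Set

/-- the `i`-th special point -/
noncomputable def P (i : ℕ) : Plane := !₂[(X i : ℝ), (Y i : ℝ)]

@[simp] theorem P_zero (i : ℕ) : P i 0 = X i := by simp [P]

@[simp] theorem P_one (i : ℕ) : P i 1 = Y i := by simp [P]

theorem nd_sq (a b : ℕ) : ((nd a b : ℕ) : ℝ) ^ 2 = ((a : ℝ) - b) ^ 2 := by
  unfold nd
  rcases le_total a b with h | h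
  · rw [Nat.sub_eq_zero_of_le h, Nat.cast_add, Nat.cast_sub h]; push_cast; ring
  · rw [Nat.sub_eq_zero_of_le h, Nat.cast_add, Nat.cast_sub h]; push_cast; ring

theorem dist_P (i j : ℕ) : dist (P i) (P j) = Real.sqrt (d2 i j) := by
  rw [EuclideanSpace.dist_eq, Fin.sum_univ_two]
  congr 1
  simp only [P_zero, P_one, Real.dist_eq, sq_abs, d2]
  push_cast
  rw [nd_sq, nd_sq]

theorem dist_P_le {i j k l : ℕ} : dist (P i) (P j) ≤ dist (P k) (P l) ↔ d2 i j ≤ d2 k l := by
  rw [dist_P, dist_P, Real.sqrt_le_sqrt_iff (Nat.cast_nonneg _), Nat.cast_le]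

theorem dist_P_lt {i j k l : ℕ} : dist (P i) (P j) < dist (P k) (P l) ↔ d2 i j < d2 k l := by
  rw [← not_le, dist_P_le, not_le]

theorem dist_P_eq {i j k l : ℕ} : dist (P i) (P j) = dist (P k) (P l) ↔ d2 i j = d2 k l := by
  rw [le_antisymm_iff, dist_P_le, dist_P_le, ← le_antisymm_iff]

theorem mem_idx {k i : ℕ} : i ∈ idx k ↔ lo k ≤ i ∧ i ≤ hi k := by
  unfold idx
  simp only [List.mem_map, List.mem_range]
  constructor
  · rintro ⟨a, ha, rfl⟩
    omega
  · rintro ⟨h1, h2⟩
    exact ⟨i - lo k, by omega, by omega⟩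

theorem mono {k i j : ℕ} (hk : k < 15) (hi' : lo k ≤ i) (hij : i < j) (hj : j ≤ hi k) :
    X i < X j := by
  have h := monoB_true
  unfold monoB at h
  rw [List.all_eq_true] at h
  have h1 := h k (List.mem_range.2 hk)
  rw [List.all_eq_true] at h1
  have h2 := h1 i (mem_idx.2 ⟨hi', by omega⟩)
  rw [List.all_eq_true] at h2
  have h3 := h2 j (mem_idx.2 ⟨by omega, hj⟩)
  rw [Bool.or_eq_true, Nat.ble_eq, Nat.blt_eq] at h3
  omega

theorem cross_ne {k i : ℕ} (hk : k < 15) (h1 : lo k ≤ i) (h2 : i + 2 ≤ hi k) :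
    ((X (i + 1) : ℤ) - X i) * ((Y (i + 2) : ℤ) - Y (i + 1)) ≠
      ((Y (i + 1) : ℤ) - Y i) * ((X (i + 2) : ℤ) - X (i + 1)) := by
  have h := crossB_true
  unfold crossB at h
  rw [List.all_eq_true] at h
  have h3 := h k (List.mem_range.2 hk)
  rw [List.all_eq_true] at h3
  have h4 := h3 i (mem_idx.2 ⟨h1, by omega⟩)
  rw [Bool.or_eq_true, Nat.blt_eq] at h4
  rcases h4 with h4 | h4
  · omega
  · simpa using h4

theorem sep {k l : ℕ} (hk : k < 15) (hl : l < 15) (hkl : k ≠ l) :
    (∀ i ∈ idx k, ∀ j ∈ idx l, X i < X j) ∨ (∀ i ∈ idx k, ∀ j ∈ idx l, X j < X i) ∨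
    (∀ i ∈ idx k, ∀ j ∈ idx l, Y i < Y j) ∨ (∀ i ∈ idx k, ∀ j ∈ idx l, Y j < Y i) := by
  have h := sepB_true
  unfold sepB at h
  rw [List.all_eq_true] at h
  have h1 := h k (List.mem_range.2 hk)
  rw [List.all_eq_true] at h1
  have h2 := h1 l (List.mem_range.2 hl)
  simp only [Bool.or_eq_true, List.all_eq_true, Nat.blt_eq, beq_iff_eq] at h2
  rcases h2 with (((h2 | h2) | h2) | h2) | h2
  · exact absurd h2 hkl
  · exact Or.inl h2
  · exact Or.inr (Or.inl h2)
  · exact Or.inr (Or.inr (Or.inl h2))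
  · exact Or.inr (Or.inr (Or.inr h2))

theorem mem_pairs {i j : ℕ} (hij : i < j) (hj : j < 60) : (i, j) ∈ pairs := by
  unfold pairs
  rw [List.mem_flatMap]
  refine ⟨i, List.mem_range.2 (by omega), ?_⟩
  rw [List.mem_map]
  exact ⟨j - i - 1, List.mem_range.2 (by omega), by rw [Prod.mk.injEq]; omega⟩

theorem d2_inj {i j k l : ℕ} (hij : i < j) (hj : j < 60) (hkl : k < l) (hl : l < 60)
    (h : d2 i j = d2 k l) : i = k ∧ j = l := by
  have hn : (pairs.map fun q => d2 q.1 q.2).Nodup := by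
    rw [pairs_map]
    exact nodup_of_nodupB _ _ ds_nodupB
  have := List.inj_on_of_nodup_map hn (mem_pairs hij hj) (mem_pairs hkl hl) h
  exact Prod.mk.inj this

theorem nd_comm (a b : ℕ) : nd a b = nd b a := by unfold nd; omega

theorem d2_comm (i j : ℕ) : d2 i j = d2 j i := by
  unfold d2; rw [nd_comm (X i), nd_comm (Y i)]

/-- the component of an index -/
def comp (i : ℕ) : ℕ := if i < 40 then i / 8 else 5 + (i - 40) / 2

theorem comp_lt {i : ℕ} (h : i < 60) : comp i < 15 := by unfold comp; split_ifs <;> omega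

theorem comp_spec {i : ℕ} (h : i < 60) : lo (comp i) ≤ i ∧ i ≤ hi (comp i) := by
  unfold comp lo hi; split_ifs <;> omega

theorem comp_eq {k i : ℕ} (hk : k < 15) (h1 : lo k ≤ i) (h2 : i ≤ hi k) : comp i = k := by
  unfold lo at h1; unfold hi at h2; unfold comp; split_ifs at * <;> omega

theorem lo_lt_hi (k : ℕ) : lo k < hi k := by unfold lo hi; split_ifs <;> omega

theorem hi_lt {k : ℕ} (hk : k < 15) : hi k < 60 := by unfold hi; split_ifs <;> omega

/-- the `k`-th component: a polygonal path -/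
def L (k : ℕ) : Set Plane := ⋃ i ∈ Ico (lo k) (hi k), segment ℝ (P i) (P (i + 1))

open Classical in
/-- the drawing -/
noncomputable def D : Finset (Sym2 Plane) :=
  (Finset.range 15).biUnion fun k =>
    (Finset.Ico (lo k) (hi k)).image fun i => s(P i, P (i + 1))

theorem mem_D {s : Sym2 Plane} :
    s ∈ D ↔ ∃ k < 15, ∃ i, lo k ≤ i ∧ i < hi k ∧ s = s(P i, P (i + 1)) := by
  unfold D
  simp only [Finset.mem_biUnion, Finset.mem_range, Finset.mem_image, Finset.mem_Ico]
  constructor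
  · rintro ⟨k, hk, i, ⟨h1, h2⟩, rfl⟩
    exact ⟨k, hk, i, h1, h2, rfl⟩
  · rintro ⟨k, hk, i, h1, h2, rfl⟩
    exact ⟨k, hk, i, ⟨h1, h2⟩, rfl⟩

theorem seg_mk (a b : Plane) : seg s(a, b) = segment ℝ a b := by
  ext x
  constructor
  · rintro ⟨c, d, h, hx⟩
    rw [Sym2.eq_iff] at h
    rcases h with ⟨rfl, rfl⟩ | ⟨rfl, rfl⟩
    · exact hx
    · rw [segment_symm]; exact hx
  · intro hx
    exact ⟨a, b, rfl, hx⟩

theorem seg_lt {a b z : Plane} {c : Fin 2} {r : ℝ} (hz : z ∈ segment ℝ a b) (ha : a c < r)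
    (hb : b c < r) : z c < r := by
  obtain ⟨s, t, hs, ht, hst, rfl⟩ := hz
  simp only [PiLp.add_apply, PiLp.smul_apply, smul_eq_mul]
  have hr : r = s * r + t * r := by rw [← add_mul, hst, one_mul]
  rcases hs.lt_or_eq with h | h
  · linarith [mul_lt_mul_of_pos_left ha h, mul_le_mul_of_nonneg_left hb.le ht]
  · have : t = 1 := by linarith
    rw [← h, this]; linarith

theorem lt_seg {a b z : Plane} {c : Fin 2} {r : ℝ} (hz : z ∈ segment ℝ a b) (ha : r < a c)
    (hb : r < b c) : r < z c := by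
  obtain ⟨s, t, hs, ht, hst, rfl⟩ := hz
  simp only [PiLp.add_apply, PiLp.smul_apply, smul_eq_mul]
  have hr : r = s * r + t * r := by rw [← add_mul, hst, one_mul]
  rcases hs.lt_or_eq with h | h
  · linarith [mul_lt_mul_of_pos_left ha h, mul_le_mul_of_nonneg_left hb.le ht]
  · have : t = 1 := by linarith
    rw [← h, this]; linarith

theorem seg_le {a b z : Plane} {c : Fin 2} {r : ℝ} (hz : z ∈ segment ℝ a b) (ha : a c ≤ r)
    (hb : b c ≤ r) : z c ≤ r := by
  obtain ⟨s, t, hs, ht, hst, rfl⟩ := hz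
  simp only [PiLp.add_apply, PiLp.smul_apply, smul_eq_mul]
  have hr : r = s * r + t * r := by rw [← add_mul, hst, one_mul]
  linarith [mul_le_mul_of_nonneg_left ha hs, mul_le_mul_of_nonneg_left hb ht]

theorem le_seg {a b z : Plane} {c : Fin 2} {r : ℝ} (hz : z ∈ segment ℝ a b) (ha : r ≤ a c)
    (hb : r ≤ b c) : r ≤ z c := by
  obtain ⟨s, t, hs, ht, hst, rfl⟩ := hz
  simp only [PiLp.add_apply, PiLp.smul_apply, smul_eq_mul]
  have hr : r = s * r + t * r := by rw [← add_mul, hst, one_mul]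
  linarith [mul_le_mul_of_nonneg_left ha hs, mul_le_mul_of_nonneg_left hb ht]

theorem mem_L {k : ℕ} {x : Plane} :
    x ∈ L k ↔ ∃ i, lo k ≤ i ∧ i < hi k ∧ x ∈ segment ℝ (P i) (P (i + 1)) := by
  unfold L
  simp only [mem_iUnion, mem_Ico, exists_prop, and_assoc]

theorem L_lt {k : ℕ} {x : Plane} {c : Fin 2} {r : ℝ} (hx : x ∈ L k)
    (h : ∀ i ∈ idx k, P i c < r) : x c < r := by
  obtain ⟨i, h1, h2, hx⟩ := mem_L.1 hx
  exact seg_lt hx (h i (mem_idx.2 ⟨h1, by omega⟩)) (h (i + 1) (mem_idx.2 ⟨by omega, by omega⟩))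

theorem lt_L {k : ℕ} {x : Plane} {c : Fin 2} {r : ℝ} (hx : x ∈ L k)
    (h : ∀ i ∈ idx k, r < P i c) : r < x c := by
  obtain ⟨i, h1, h2, hx⟩ := mem_L.1 hx
  exact lt_seg hx (h i (mem_idx.2 ⟨h1, by omega⟩)) (h (i + 1) (mem_idx.2 ⟨by omega, by omega⟩))

theorem L_lt_L {k l : ℕ} {x y : Plane} {c : Fin 2} (hx : x ∈ L k) (hy : y ∈ L l)
    (h : ∀ i ∈ idx k, ∀ j ∈ idx l, P i c < P j c) : x c < y c :=
  lt_L hy fun j hj => L_lt hx fun i hi => h i hi j hj

theorem L_ne {k l : ℕ} (hk : k < 15) (hl : l < 15) (hkl : k ≠ l) {x : Plane} (hx : x ∈ L k)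
    (hy : x ∈ L l) : False := by
  rcases sep hk hl hkl with h | h | h | h
  · exact lt_irrefl _ (L_lt_L (c := 0) hx hy fun i hi j hj => by
      simpa using h i hi j hj)
  · exact lt_irrefl _ (L_lt_L (c := 0) hy hx fun i hi j hj => by
      simpa using h j hj i hi)
  · exact lt_irrefl _ (L_lt_L (c := 1) hx hy fun i hi j hj => by
      simpa using h i hi j hj)
  · exact lt_irrefl _ (L_lt_L (c := 1) hy hx fun i hi j hj => by
      simpa using h j hj i hi)

theorem segment_subset_L {k i : ℕ} (h1 : lo k ≤ i) (h2 : i < hi k) :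
    segment ℝ (P i) (P (i + 1)) ⊆ L k := fun _ hx => mem_L.2 ⟨i, h1, h2, hx⟩

theorem P_mem_L {k i : ℕ} (h1 : lo k ≤ i) (h2 : i ≤ hi k) : P i ∈ L k := by
  rcases h2.lt_or_eq with h | h
  · exact segment_subset_L h1 h (left_mem_segment _ _ _)
  · have := lo_lt_hi k
    have h3 : P i ∈ segment ℝ (P (i - 1)) (P (i - 1 + 1)) := by
      rw [Nat.sub_add_cancel (by omega)]
      exact right_mem_segment _ _ _
    exact segment_subset_L (by omega) (by omega) h3

theorem P_mem_L_iff {k i : ℕ} (hk : k < 15) (hi60 : i < 60) : P i ∈ L k ↔ i ∈ idx k := by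
  constructor
  · intro h
    obtain ⟨h1, h2⟩ := comp_spec hi60
    by_cases hc : comp i = k
    · rw [← hc]; exact mem_idx.2 ⟨h1, h2⟩
    · exact (L_ne (comp_lt hi60) hk hc (P_mem_L h1 h2) h).elim
  · intro h
    rw [mem_idx] at h
    exact P_mem_L h.1 h.2

theorem mono_le {k i j : ℕ} (hk : k < 15) (hi' : lo k ≤ i) (hij : i ≤ j) (hj : j ≤ hi k) :
    X i ≤ X j := by
  rcases hij.lt_or_eq with h | h
  · exact (mono hk hi' h hj).le
  · rw [h]

theorem P_inj {i j : ℕ} (hi60 : i < 60) (hj60 : j < 60) (h : P i = P j) : i = j := by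
  obtain ⟨h1, h2⟩ := comp_spec hi60
  obtain ⟨h3, h4⟩ := comp_spec hj60
  have hc : comp i = comp j := by
    by_contra hc
    exact L_ne (comp_lt hi60) (comp_lt hj60) hc (P_mem_L h1 h2) (by rw [h]; exact P_mem_L h3 h4)
  rw [hc] at h1 h2
  have hx : X i = X j := by
    have := congrArg (fun z : Plane => z 0) h
    simpa using this
  rcases lt_trichotomy i j with h5 | h5 | h5
  · exact absurd hx (mono (comp_lt hj60) h1 h5 h4).ne
  · exact h5
  · exact absurd hx (mono (comp_lt hj60) h3 h5 h2).ne'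

/-- first coordinates of points of a segment of the drawing -/
theorem seg_bounds {k i : ℕ} (hk : k < 15) (h1 : lo k ≤ i) (h2 : i < hi k) {z : Plane}
    (hz : z ∈ segment ℝ (P i) (P (i + 1))) : (X i : ℝ) ≤ z 0 ∧ z 0 ≤ X (i + 1) := by
  have h : (X i : ℝ) ≤ X (i + 1) := by exact_mod_cast (mono hk h1 (Nat.lt_succ_self i) h2).le
  exact ⟨le_seg hz (by simp) (by simpa using h), seg_le hz (by simpa using h) (by simp)⟩

theorem eq_right {k i : ℕ} (hk : k < 15) (h1 : lo k ≤ i) (h2 : i < hi k) {z : Plane}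
    (hz : z ∈ segment ℝ (P i) (P (i + 1))) (h : (X (i + 1) : ℝ) ≤ z 0) : z = P (i + 1) := by
  obtain ⟨s, t, hs, ht, hst, rfl⟩ := hz
  have hlt : (X i : ℝ) < X (i + 1) := by exact_mod_cast mono hk h1 (Nat.lt_succ_self i) h2
  simp only [PiLp.add_apply, PiLp.smul_apply, smul_eq_mul, P_zero] at h
  have ht' : t = 1 - s := by linarith
  subst ht'
  have hs0 : s = 0 := by
    by_contra hne
    have : 0 < s := lt_of_le_of_ne hs (Ne.symm hne)
    nlinarith
  rw [hs0]; simp

/-- two segments of the same component -/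
theorem inter_same {k i j : ℕ} (hk : k < 15) (h1 : lo k ≤ i) (hij : i < j) (h2 : j < hi k)
    {z : Plane} (hz : z ∈ segment ℝ (P i) (P (i + 1))) (hz' : z ∈ segment ℝ (P j) (P (j + 1))) :
    j = i + 1 ∧ z = P j := by
  have a1 := (seg_bounds hk h1 (by omega) hz).2
  have a2 := (seg_bounds hk (by omega) h2 hz').1
  have hj : j = i + 1 := by
    by_contra hne
    have : X (i + 1) < X j := mono hk (by omega) (by omega) (by omega)
    have : (X (i + 1) : ℝ) < X j := by exact_mod_cast this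
    linarith
  subst hj
  exact ⟨rfl, eq_right hk h1 (by omega) hz a2⟩

theorem specialPoints_D : specialPoints D = {p | ∃ i < 60, p = P i} := by
  ext p
  constructor
  · rintro (⟨s, hs, hp⟩ | ⟨s, hs, t, ht, hst, hp, hp'⟩)
    · obtain ⟨k, hk, i, h1, h2, rfl⟩ := mem_D.1 hs
      have := hi_lt hk
      rw [Sym2.mem_iff] at hp
      rcases hp with rfl | rfl
      · exact ⟨i, by omega, rfl⟩
      · exact ⟨i + 1, by omega, rfl⟩
    · obtain ⟨k, hk, i, h1, h2, rfl⟩ := mem_D.1 hs
      obtain ⟨l, hl, j, h3, h4, rfl⟩ := mem_D.1 ht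
      rw [seg_mk] at hp hp'
      have hkl : k = l := by
        by_contra hkl
        exact L_ne hk hl hkl (segment_subset_L h1 h2 hp) (segment_subset_L h3 h4 hp')
      subst hkl
      have := hi_lt hk
      rcases lt_trichotomy i j with h | h | h
      · exact ⟨j, by omega, (inter_same hk h1 h h4 hp hp').2⟩
      · exact absurd (by rw [h]) hst
      · exact ⟨i, by omega, (inter_same hk h3 h h2 hp' hp).2⟩
  · rintro ⟨i, hi60, rfl⟩
    left
    obtain ⟨h1, h2⟩ := comp_spec hi60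
    rcases h2.lt_or_eq with h | h
    · exact ⟨s(P i, P (i + 1)), mem_D.2 ⟨comp i, comp_lt hi60, i, h1, h, rfl⟩,
        Sym2.mem_iff.2 (Or.inl rfl)⟩
    · have hlt := lo_lt_hi (comp i)
      exact ⟨s(P (i - 1), P (i - 1 + 1)), mem_D.2 ⟨comp i, comp_lt hi60, i - 1, by omega, by omega,
        rfl⟩, Sym2.mem_iff.2 (Or.inr (by rw [Nat.sub_add_cancel (by omega)]))⟩

theorem isPlane_D : IsPlane D := by
  intro s hs p hp hps
  obtain ⟨k, hk, i, h1, h2, rfl⟩ := mem_D.1 hs
  rw [specialPoints_D] at hp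
  obtain ⟨j, hj, rfl⟩ := hp
  rw [seg_mk] at hps
  have hL := segment_subset_L h1 h2 hps
  rw [P_mem_L_iff hk hj, mem_idx] at hL
  obtain ⟨b1, b2⟩ := seg_bounds hk h1 h2 hps
  rw [P_zero] at b1 b2
  have hj' : j = i ∨ j = i + 1 := by
    by_contra hcon
    push Not at hcon
    rcases Nat.lt_or_ge j i with h | h
    · have : X j < X i := mono hk hL.1 h (by omega)
      have : (X j : ℝ) < X i := by exact_mod_cast this
      linarith
    · have : X (i + 1) < X j := mono hk (by omega) (by omega) hL.2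
      have : (X (i + 1) : ℝ) < X j := by exact_mod_cast this
      linarith
  rw [Sym2.mem_iff]
  rcases hj' with rfl | rfl
  · exact Or.inl rfl
  · exact Or.inr rfl

theorem not_parallel {k i : ℕ} (hk : k < 15) (h1 : lo k ≤ i) (h2 : i + 2 ≤ hi k) :
    ¬ Parallel s(P i, P (i + 1)) s(P (i + 1), P (i + 2)) := by
  rintro ⟨a, b, c, d, hs, ht, r, hr⟩
  have h0 := congrArg (fun z : Plane => z 0) hr
  have h1' := congrArg (fun z : Plane => z 1) hr
  simp only [PiLp.sub_apply, PiLp.smul_apply, smul_eq_mul] at h0 h1'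
  have hc := cross_ne hk h1 h2
  apply hc
  have key : ((X (i + 1) : ℝ) - X i) * ((Y (i + 2) : ℝ) - Y (i + 1)) =
      ((Y (i + 1) : ℝ) - Y i) * ((X (i + 2) : ℝ) - X (i + 1)) := by
    rw [Sym2.eq_iff] at hs ht
    rcases hs with ⟨rfl, rfl⟩ | ⟨rfl, rfl⟩
    · rcases ht with ⟨rfl, rfl⟩ | ⟨rfl, rfl⟩ <;>
        simp only [P_zero, P_one] at h0 h1' <;> linear_combination
          ((Y (i + 2) : ℝ) - Y (i + 1)) * h0 - ((X (i + 2) : ℝ) - X (i + 1)) * h1'
    · rcases ht with ⟨rfl, rfl⟩ | ⟨rfl, rfl⟩ <;>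
        simp only [P_zero, P_one] at h0 h1' <;> linear_combination
          -((Y (i + 2) : ℝ) - Y (i + 1)) * h0 + ((X (i + 2) : ℝ) - X (i + 1)) * h1'
  exact_mod_cast key

theorem isDrawing_D : IsDrawing D := by
  refine ⟨?_, ?_, ?_⟩
  · intro s hs hd
    obtain ⟨k, hk, i, h1, h2, rfl⟩ := mem_D.1 hs
    rw [Sym2.mk_isDiag_iff] at hd
    have := hi_lt hk
    have := P_inj (by omega) (by omega) hd
    omega
  · intro s hs t ht hst hne
    obtain ⟨k, hk, i, h1, h2, rfl⟩ := mem_D.1 hs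
    obtain ⟨l, hl, j, h3, h4, rfl⟩ := mem_D.1 ht
    rw [seg_mk, seg_mk] at hne ⊢
    obtain ⟨z, hz, hz'⟩ := hne
    have hkl : k = l := by
      by_contra hkl
      exact L_ne hk hl hkl (segment_subset_L h1 h2 hz) (segment_subset_L h3 h4 hz')
    subst hkl
    rcases lt_trichotomy i j with h | h | h
    · obtain ⟨rfl, hzj⟩ := inter_same hk h1 h h4 hz hz'
      refine ⟨⟨P (i + 1), ?_⟩, not_parallel hk h1 (by omega)⟩
      refine Subset.antisymm (fun w hw => (inter_same hk h1 h h4 hw.1 hw.2).2) ?_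
      rintro w rfl
      exact ⟨right_mem_segment _ _ _, left_mem_segment _ _ _⟩
    · exact absurd (by rw [h]) hst
    · obtain ⟨rfl, hzj⟩ := inter_same hk h3 h h2 hz' hz
      refine ⟨⟨P (j + 1), ?_⟩, ?_⟩
      · refine Subset.antisymm (fun w hw => (inter_same hk h3 h h2 hw.2 hw.1).2) ?_
        rintro w rfl
        exact ⟨left_mem_segment _ _ _, right_mem_segment _ _ _⟩
      · rintro ⟨a, b, c, d, hs', ht', r, hr⟩
        have hcd : c ≠ d := by
          rintro rfl
          rw [Sym2.eq_iff] at ht'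
          have := hi_lt hk
          rcases ht' with ⟨h5, h6⟩ | ⟨h5, h6⟩
          · have := P_inj (i := j) (j := j + 1) (by omega) (by omega) (h5.trans h6.symm)
            omega
          · have := P_inj (i := j) (j := j + 1) (by omega) (by omega) (h5.trans h6.symm)
            omega
        have hab : a ≠ b := by
          rintro rfl
          rw [Sym2.eq_iff] at hs'
          have := hi_lt hk
          rcases hs' with ⟨h5, h6⟩ | ⟨h5, h6⟩
          · have := P_inj (i := j + 1) (j := j + 1 + 1) (by omega) (by omega) (h5.trans h6.symm)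
            omega
          · have := P_inj (i := j + 1) (j := j + 1 + 1) (by omega) (by omega) (h5.trans h6.symm)
            omega
        have hr0 : r ≠ 0 := by
          rintro rfl
          rw [zero_smul, sub_eq_zero] at hr
          exact hab hr.symm
        exact not_parallel hk h3 (by omega) ⟨c, d, a, b, ht', hs', r⁻¹, by
          rw [hr, smul_smul, inv_mul_cancel₀ hr0, one_smul]⟩
  · intro p hp q hq p' hp' q' hq' hpq hpq' hd
    rw [specialPoints_D] at hp hq hp' hq'
    obtain ⟨i, hi60, rfl⟩ := hp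
    obtain ⟨j, hj60, rfl⟩ := hq
    obtain ⟨k, hk60, rfl⟩ := hp'
    obtain ⟨l, hl60, rfl⟩ := hq'
    rw [dist_P_eq] at hd
    have hij : i ≠ j := fun h => hpq (by rw [h])
    have hkl : k ≠ l := fun h => hpq' (by rw [h])
    rw [Sym2.eq_iff]
    rcases lt_or_gt_of_ne hij with h | h <;> rcases lt_or_gt_of_ne hkl with h' | h'
    · obtain ⟨rfl, rfl⟩ := d2_inj h hj60 h' hl60 hd
      exact Or.inl ⟨rfl, rfl⟩
    · rw [d2_comm k l] at hd
      obtain ⟨rfl, rfl⟩ := d2_inj h hj60 h' hk60 hd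
      exact Or.inr ⟨rfl, rfl⟩
    · rw [d2_comm i j] at hd
      obtain ⟨rfl, rfl⟩ := d2_inj h hi60 h' hl60 hd
      exact Or.inr ⟨rfl, rfl⟩
    · rw [d2_comm i j, d2_comm k l] at hd
      obtain ⟨rfl, rfl⟩ := d2_inj h hi60 h' hk60 hd
      exact Or.inl ⟨rfl, rfl⟩

theorem carrier_D : carrier D = ⋃ k ∈ Iio 15, L k := by
  ext x
  unfold carrier
  simp only [mem_iUnion, mem_Iio, exists_prop]
  constructor
  · rintro ⟨s, hs, hx⟩
    obtain ⟨k, hk, i, h1, h2, rfl⟩ := mem_D.1 hs
    rw [seg_mk] at hx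
    exact ⟨k, hk, segment_subset_L h1 h2 hx⟩
  · rintro ⟨k, hk, hx⟩
    obtain ⟨i, h1, h2, hx⟩ := mem_L.1 hx
    exact ⟨s(P i, P (i + 1)), mem_D.2 ⟨k, hk, i, h1, h2, rfl⟩, by rw [seg_mk]; exact hx⟩

theorem isClosed_L (k : ℕ) : IsClosed (L k) := by
  unfold L
  refine (finite_Ico _ _).isClosed_biUnion fun i _ => ?_
  rw [segment_eq_image_lineMap]
  exact (isCompact_Icc.image (AffineMap.lineMap_continuous)).isClosed

theorem isPreconnected_L (k : ℕ) : IsPreconnected (L k) := by
  unfold L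
  refine IsPreconnected.biUnion_of_chain ordConnected_Ico (fun i _ =>
    (convex_segment _ _).isPreconnected) fun i _ _ => ?_
  exact ⟨P (i + 1), right_mem_segment _ _ _, left_mem_segment _ _ _⟩

theorem component_eq {k : ℕ} (hk : k < 15) {x : Plane} (hx : x ∈ L k) :
    connectedComponentIn (carrier D) x = L k := by
  have hsub : L k ⊆ carrier D := by
    rw [carrier_D]
    exact fun y hy => mem_iUnion₂.2 ⟨k, hk, hy⟩
  refine Subset.antisymm ?_ ((isPreconnected_L k).subset_connectedComponentIn hx hsub)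
  have hpre : IsPreconnected (connectedComponentIn (carrier D) x) :=
    isPreconnected_connectedComponentIn
  have hM : IsClosed (⋃ l ∈ Iio 15 \ {k}, L l) :=
    ((finite_Iio 15).subset sdiff_subset).isClosed_biUnion fun l _ => isClosed_L l
  have hcov : connectedComponentIn (carrier D) x ⊆ L k ∪ ⋃ l ∈ Iio 15 \ {k}, L l := by
    intro y hy
    have hy' := connectedComponentIn_subset _ _ hy
    rw [carrier_D] at hy'
    obtain ⟨l, hl, hyl⟩ := mem_iUnion₂.1 hy'
    by_cases h : l = k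
    · left; rw [← h]; exact hyl
    · right; exact mem_iUnion₂.2 ⟨l, ⟨hl, h⟩, hyl⟩
  have hdisj : connectedComponentIn (carrier D) x ∩ (L k ∩ ⋃ l ∈ Iio 15 \ {k}, L l) = ∅ := by
    rw [eq_empty_iff_forall_notMem]
    rintro y ⟨-, hyk, hyl⟩
    obtain ⟨l, hl, hyl⟩ := mem_iUnion₂.1 hyl
    exact L_ne hk hl.1 (fun h => hl.2 h.symm) hyk hyl
  rcases isPreconnected_iff_subset_of_disjoint_closed.1 hpre _ _ (isClosed_L k) hM hcov hdisj
    with h | h
  · exact h
  · exfalso
    have hxx : x ∈ connectedComponentIn (carrier D) x := mem_connectedComponentIn (hsub hx)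
    obtain ⟨l, hl, hyl⟩ := mem_iUnion₂.1 (h hxx)
    exact L_ne hk hl.1 (fun h => hl.2 h.symm) hx hyl

theorem isComponent_iff (K : Set Plane) : IsComponent D K ↔ ∃ k < 15, K = L k := by
  constructor
  · rintro ⟨x, hx, rfl⟩
    rw [carrier_D] at hx
    obtain ⟨k, hk, hx⟩ := mem_iUnion₂.1 hx
    exact ⟨k, hk, component_eq hk hx⟩
  · rintro ⟨k, hk, rfl⟩
    have hx : P (lo k) ∈ L k := P_mem_L le_rfl (lo_lt_hi k).le
    refine ⟨P (lo k), ?_, (component_eq hk hx).symm⟩
    rw [carrier_D]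
    exact mem_iUnion₂.2 ⟨k, hk, hx⟩

theorem sees_iff {k l : ℕ} (hk : k < 15) (hl : l < 15) :
    Sees D (L k) (L l) ↔ seesB k l = true := by
  unfold seesB
  simp only [List.any_eq_true, Bool.and_eq_true, List.all_eq_true, Bool.or_eq_true,
    Bool.not_eq_true', beq_eq_false_iff_ne, beq_iff_eq, Nat.ble_eq, Nat.blt_eq]
  constructor
  · rintro ⟨p, hp, hpk, a, ⟨ha, hak, hap, hmin⟩, q, hq, hql, hlt⟩
    rw [specialPoints_D] at hp ha hq
    obtain ⟨i, hi60, rfl⟩ := hp
    obtain ⟨j, hj60, rfl⟩ := ha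
    obtain ⟨m, hm60, rfl⟩ := hq
    rw [P_mem_L_iff hk hi60] at hpk
    rw [P_mem_L_iff hk hj60] at hak
    rw [P_mem_L_iff hl hm60] at hql
    refine ⟨i, hpk, j, hak, ⟨fun h => hap (by rw [h]), fun r hr => ?_⟩, m, hql, dist_P_lt.1 hlt⟩
    by_cases hri : r = i
    · exact Or.inl hri
    · right
      have hr60 : r < 60 := by
        have := hi_lt hk
        have := (mem_idx.1 hr).2
        omega
      refine dist_P_le.1 (hmin (P r) ?_ ((P_mem_L_iff hk hr60).2 hr)
        fun h => hri (P_inj hr60 hi60 h))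
      rw [specialPoints_D]; exact ⟨r, hr60, rfl⟩
  · rintro ⟨i, hpk, j, hak, ⟨hji, hmin⟩, m, hql, hlt⟩
    have h60 : ∀ {k r : ℕ}, k < 15 → r ∈ idx k → r < 60 := by
      intro k r hk hr
      have := hi_lt hk
      have := (mem_idx.1 hr).2
      omega
    have hs : ∀ {k r : ℕ}, k < 15 → r ∈ idx k → P r ∈ specialPoints D := by
      intro k r hk hr
      rw [specialPoints_D]; exact ⟨r, h60 hk hr, rfl⟩
    refine ⟨P i, hs hk hpk, (P_mem_L_iff hk (h60 hk hpk)).2 hpk, P j,
      ⟨hs hk hak, (P_mem_L_iff hk (h60 hk hak)).2 hak,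
        fun h => hji (P_inj (h60 hk hak) (h60 hk hpk) h), ?_⟩,
      P m, hs hl hql, (P_mem_L_iff hl (h60 hl hql)).2 hql, dist_P_lt.2 hlt⟩
    intro r hr hrk hri
    rw [specialPoints_D] at hr
    obtain ⟨n, hn60, rfl⟩ := hr
    rw [P_mem_L_iff hk hn60] at hrk
    rcases hmin n hrk with h | h
    · exact absurd (by rw [h]) hri
    · exact dist_P_le.2 h

theorem L_inj {k l : ℕ} (hk : k < 15) (hl : l < 15) (h : L k = L l) : k = l := by
  by_contra hkl
  have hx : P (lo k) ∈ L k := P_mem_L le_rfl (lo_lt_hi k).le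
  exact L_ne hk hl hkl hx (h ▸ hx)

/-- numbering of the vertices of the subdivided `K₅` -/
def code : Fin 5 ⊕ Fin 10 → ℕ
  | .inl i => i
  | .inr m => 5 + m

theorem code_lt (v : Fin 5 ⊕ Fin 10) : code v < 15 := by
  rcases v with i | m <;> simp only [code] <;> omega

theorem code_inj : Function.Injective code := by
  rintro (i | m) (j | n) h <;> simp only [code] at h
  · congr 1; exact Fin.ext h
  · omega
  · omega
  · congr 1; exact Fin.ext (by omega)

theorem code_surj {k : ℕ} (hk : k < 15) : ∃ v, code v = k := by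
  by_cases h : k < 5
  · exact ⟨.inl ⟨k, h⟩, rfl⟩
  · exact ⟨.inr ⟨k - 5, by omega⟩, by simp only [code]; omega⟩

theorem adj_iff (u v : Fin 5 ⊕ Fin 10) :
    subdividedK5.Adj u v ↔ (adjB (code u) (code v) || adjB (code v) (code u)) = true := by
  have h : ∀ (i : Fin 5) (m : Fin 10), (i = (ends m).1 ∨ i = (ends m).2) ↔
      (adjB i (5 + m) || adjB (5 + m) i) = true := by decide
  have h1 : ∀ i j : Fin 5, (adjB i j || adjB j i) = false := by decide
  have h2 : ∀ m n : Fin 10, (adjB (5 + m) (5 + n) || adjB (5 + n) (5 + m)) = false := by decide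
  rcases u with i | m <;> rcases v with j | n
  · constructor
    · exact fun hf => hf.elim
    · intro hf
      simp only [code] at hf
      rw [h1 i j] at hf
      exact absurd hf (by decide)
  · exact h i n
  · rw [Bool.or_comm]
    exact h j m
  · constructor
    · exact fun hf => hf.elim
    · intro hf
      simp only [code] at hf
      rw [h2 m n] at hf
      exact absurd hf (by decide)

/-- The graph obtained from `K₅` by subdividing every edge once is a conflict graph. -/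
theorem isConflictGraph : IsConflictGraph subdividedK5 := by
  refine ⟨D, isDrawing_D, isPlane_D, fun v => L (code v), ?_, ?_, ?_⟩
  · intro u v h
    exact code_inj (L_inj (code_lt u) (code_lt v) h)
  · intro K
    rw [isComponent_iff]
    constructor
    · rintro ⟨k, hk, rfl⟩
      obtain ⟨v, rfl⟩ := code_surj hk
      exact ⟨v, rfl⟩
    · rintro ⟨v, rfl⟩
      exact ⟨code v, code_lt v, rfl⟩
  · intro u v
    rw [adj_iff, sees_iff (code_lt u) (code_lt v), sees_iff (code_lt v) (code_lt u),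
      ← Bool.or_eq_true]
    by_cases huv : u = v
    · subst huv
      constructor
      · intro h
        exact absurd ((adj_iff u u).2 h) (subdividedK5.loopless.irrefl u)
      · exact fun h => absurd rfl h.1
    · have h := sees_adj
      rw [List.all_eq_true] at h
      have h1 := h (code u) (List.mem_range.2 (code_lt u))
      rw [List.all_eq_true] at h1
      have h2 := h1 (code v) (List.mem_range.2 (code_lt v))
      rw [Bool.or_eq_true, beq_iff_eq, beq_iff_eq] at h2
      rcases h2 with h2 | h2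
      · exact absurd (code_inj h2) huv
      · rw [h2]
        exact ⟨fun h3 => ⟨huv, h3⟩, fun h3 => h3.2⟩

end Pool.Agent.ConfStr48
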