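import Pool.Agent.ConfStr48.Curves

/-!
# Choice of the starting points of the tips in general position
-/

namespace Pool.Agent.ConfStr48

open Set MeasureTheory Module

/-- Space-time. -/
abbrev ST := Plane × ℝ

lemma span3_ne_top (b c e : ST) : affineSpan ℝ ({b, c, e} : Set ST) ≠ ⊤ := by
  intro h
  have h1 : vectorSpan ℝ ({b, c, e} : Set ST) = ⊤ := by
    rw [← direction_affineSpan, h, AffineSubspace.direction_top]
  have h2 : finrank ℝ (vectorSpan ℝ (range ![b, c, e])) ≤ 2 :=
    finrank_vectorSpan_range_le ℝ _ (by simp)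
  have h3 : range ![b, c, e] = {b, c, e} := by
    ext x
    simp only [mem_range, Fin.exists_fin_succ, Fin.exists_fin_zero, mem_insert_iff,
      mem_singleton_iff]
    simp [eq_comm]
  rw [h3, h1, finrank_top, Module.finrank_prod, finrank_euclideanSpace_fin, finrank_self] at h2
  omega

lemma exists_avoid {ι : Type*} [Finite ι] (S : ι → AffineSubspace ℝ ST) (hS : ∀ i, S i ≠ ⊤)
    {U : Set ST} (hU : IsOpen U) (hne : U.Nonempty) : ∃ a ∈ U, ∀ i, a ∉ S i := by
  by_contra hcon
  push Not at hcon
  have h1 : U ⊆ ⋃ i, (S i : Set ST) := fun a ha => by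
    obtain ⟨i, hi⟩ := hcon a ha
    exact mem_iUnion.mpr ⟨i, hi⟩
  have h2 : ((volume : Measure Plane).prod (volume : Measure ℝ)) (⋃ i, (S i : Set ST)) = 0 :=
    measure_iUnion_null fun i => Measure.addHaar_affineSubspace _ _ (hS i)
  have h3 := hU.measure_pos ((volume : Measure Plane).prod (volume : Measure ℝ)) hne
  exact absurd (measure_mono_null h1 h2) h3.ne'

lemma seg_disj {b b' a a' : ST} (hb : b ≠ b') (h0 : b.2 = 0) (h0' : b'.2 = 0) (ha' : a'.2 < 0)
    (h : a ∉ affineSpan ℝ ({b, b', a'} : Set ST)) : Disjoint (segment ℝ b a) (segment ℝ b' a') := by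
  rw [Set.disjoint_left]
  intro z hz hz'
  rw [segment_eq_image_lineMap] at hz hz'
  obtain ⟨l, -, hl⟩ := hz
  obtain ⟨l', -, hl'⟩ := hz'
  by_cases h1 : l = 0
  · rw [h1, AffineMap.lineMap_apply_zero] at hl
    have h2 : z.2 = l' * a'.2 := by
      rw [← hl', AffineMap.lineMap_apply]
      simp [h0']
    rw [← hl, h0] at h2
    have h3 : l' = 0 := by
      rcases mul_eq_zero.mp h2.symm with h4 | h4
      · exact h4
      · exact absurd h4 ha'.ne
    rw [h3, AffineMap.lineMap_apply_zero] at hl'
    exact hb (hl.trans hl'.symm)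
  · apply h
    have hz : z ∈ affineSpan ℝ ({b, b', a'} : Set ST) := by
      rw [← hl']
      exact AffineMap.lineMap_mem _ (subset_affineSpan ℝ _ (by simp))
        (subset_affineSpan ℝ _ (by simp))
    have hb' : b ∈ affineSpan ℝ ({b, b', a'} : Set ST) := subset_affineSpan ℝ _ (by simp)
    have ha : a = AffineMap.lineMap b z l⁻¹ := by
      rw [← hl, AffineMap.lineMap_apply, AffineMap.lineMap_apply]
      simp only [vsub_eq_sub, vadd_eq_add, add_sub_cancel_right, smul_smul, inv_mul_cancel₀ h1,
        one_smul, sub_add_cancel]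
    rw [ha]
    exact AffineMap.lineMap_mem _ hb' hz

lemma line_disj {b a : ST} {x : Plane} (hb : b.1 ≠ x)
    (h : a ∉ affineSpan ℝ ({b, (x, 0), (x, 1)} : Set ST)) (t : ℝ) :
    ((x, t) : ST) ∉ segment ℝ b a := by
  intro hz
  rw [segment_eq_image_lineMap] at hz
  obtain ⟨l, -, hl⟩ := hz
  by_cases h1 : l = 0
  · rw [h1, AffineMap.lineMap_apply_zero] at hl
    exact hb (by rw [hl])
  · apply h
    have hz : ((x, t) : ST) ∈ affineSpan ℝ ({b, (x, 0), (x, 1)} : Set ST) := by
      have : ((x, t) : ST) = AffineMap.lineMap ((x, 0) : ST) ((x, 1) : ST) t := by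
        rw [AffineMap.lineMap_apply]
        simp
      rw [this]
      exact AffineMap.lineMap_mem _ (subset_affineSpan ℝ _ (by simp))
        (subset_affineSpan ℝ _ (by simp))
    have hb' : b ∈ affineSpan ℝ ({b, (x, 0), (x, 1)} : Set ST) := subset_affineSpan ℝ _ (by simp)
    have ha : a = AffineMap.lineMap b ((x, t) : ST) l⁻¹ := by
      rw [← hl, AffineMap.lineMap_apply, AffineMap.lineMap_apply]
      simp only [vsub_eq_sub, vadd_eq_add, add_sub_cancel_right, smul_smul, inv_mul_cancel₀ h1,
        one_smul, sub_add_cancel]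
    rw [ha]
    exact AffineMap.lineMap_mem _ hb' hz

/-- The starting points in general position. -/
theorem exists_starts {W : Type*} [Fintype W] (p q : W → Plane) (U : W → Set ST)
    (hU : ∀ w, IsOpen (U w)) (hUne : ∀ w, (U w).Nonempty) (hU0 : ∀ w, ∀ a ∈ U w, a.2 < 0)
    (hq : Function.Injective q) (hqp : ∀ w u, q w ≠ p u) :
    ∃ a : W → ST, (∀ w, a w ∈ U w) ∧
      (∀ w u t, ((p u, t) : ST) ∉ segment ℝ ((q w, 0) : ST) (a w)) ∧
      ∀ w u, w ≠ u → Disjoint (segment ℝ ((q w, 0) : ST) (a w))
        (segment ℝ ((q u, 0) : ST) (a u)) := by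
  classical
  have key : ∀ T : Finset W, ∃ a : W → ST, (∀ w ∈ T, a w ∈ U w) ∧
      (∀ w ∈ T, ∀ u t, ((p u, t) : ST) ∉ segment ℝ ((q w, 0) : ST) (a w)) ∧
      ∀ w ∈ T, ∀ u ∈ T, w ≠ u → Disjoint (segment ℝ ((q w, 0) : ST) (a w))
        (segment ℝ ((q u, 0) : ST) (a u)) := by
    intro T
    induction T using Finset.induction_on with
    | empty => exact ⟨fun _ => 0, by simp, by simp, by simp⟩
    | insert w₀ T hw₀ ih =>
      obtain ⟨a, h1, h2, h3⟩ := ih
      let S : W ⊕ W → AffineSubspace ℝ ST := Sum.elim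
        (fun u => affineSpan ℝ ({((q w₀, 0) : ST), ((p u, 0) : ST), ((p u, 1) : ST)} : Set ST))
        (fun u => affineSpan ℝ ({((q w₀, 0) : ST), ((q u, 0) : ST), a u} : Set ST))
      obtain ⟨a₀, ha₀, ha₀S⟩ := exists_avoid S (by
        rintro (u | u)
        · exact span3_ne_top _ _ _
        · exact span3_ne_top _ _ _) (hU w₀) (hUne w₀)
      have hne : ∀ w ∈ T, w ≠ w₀ := fun w hw h => hw₀ (h ▸ hw)
      have hd : ∀ u ∈ T, Disjoint (segment ℝ ((q w₀, 0) : ST) a₀)
          (segment ℝ ((q u, 0) : ST) (a u)) := fun u hu => by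
        refine seg_disj ?_ rfl rfl (hU0 u _ (h1 u hu)) (ha₀S (Sum.inr u))
        intro h
        exact hne u hu (hq (congrArg Prod.fst h)).symm
      refine ⟨Function.update a w₀ a₀, ?_, ?_, ?_⟩
      · intro w hw
        rcases Finset.mem_insert.mp hw with hw' | hw'
        · rw [hw', Function.update_self]; exact ha₀
        · rw [Function.update_of_ne (hne w hw')]; exact h1 w hw'
      · intro w hw u t
        rcases Finset.mem_insert.mp hw with hw' | hw'
        · rw [hw', Function.update_self]
          exact line_disj (hqp w₀ u) (ha₀S (Sum.inl u)) t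
        · rw [Function.update_of_ne (hne w hw')]; exact h2 w hw' u t
      · intro w hw u hu hwu
        rcases Finset.mem_insert.mp hw with hw' | hw'
        · rcases Finset.mem_insert.mp hu with hu' | hu'
          · exact absurd (hw'.trans hu'.symm) hwu
          · rw [hw', Function.update_self, Function.update_of_ne (hne u hu')]
            exact hd u hu'
        · rcases Finset.mem_insert.mp hu with hu' | hu'
          · rw [hu', Function.update_self, Function.update_of_ne (hne w hw')]
            exact (hd w hw').symm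
          · rw [Function.update_of_ne (hne w hw'), Function.update_of_ne (hne u hu')]
            exact h3 w hw' u hu' hwu
  obtain ⟨a, h1, h2, h3⟩ := key Finset.univ
  exact ⟨a, fun w => h1 w (Finset.mem_univ _), fun w => h2 w (Finset.mem_univ _),
    fun w u => h3 w (Finset.mem_univ _) u (Finset.mem_univ _)⟩

end Pool.Agent.ConfStr48
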