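import Pool.Agent.ConfStr48.Defs
import Pool.Agent.Lib.BorsukUlam.Main

/-!
# The graph obtained from `K₅` by subdividing every edge once is not a string graph

The proof uses the van Kampen-Flores theorem in dimension one (every continuous map of the complete
graph `K₅` to the plane has two disjoint edges whose images meet), which is proved from the
Borsuk-Ulam theorem.
-/

namespace Pool.Agent.ConfStr48

open Set Module

/-- the closed edge `ij` of the standard simplex in `ℝ⁵` -/
def edgeSet (i j : Fin 5) : Set (Fin 5 → ℝ) :=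
  {x | (∀ k, 0 ≤ x k) ∧ (∀ k, k ≠ i → k ≠ j → x k = 0) ∧ ∑ k, x k = 1}

theorem isClosed_edgeSet (i j : Fin 5) : IsClosed (edgeSet i j) := by
  have h1 : IsClosed {x : Fin 5 → ℝ | ∀ k, 0 ≤ x k} := by
    rw [Set.ofPred_forall]
    exact isClosed_iInter fun k => isClosed_le continuous_const (continuous_apply k)
  have h2 : IsClosed {x : Fin 5 → ℝ | ∀ k, k ≠ i → k ≠ j → x k = 0} := by
    simp only [Set.ofPred_forall]
    exact isClosed_iInter fun k => isClosed_iInter fun _ => isClosed_iInter fun _ =>
      isClosed_eq (continuous_apply k) continuous_const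
  have h3 : IsClosed {x : Fin 5 → ℝ | ∑ k, x k = 1} :=
    isClosed_eq (continuous_finsetSum _ fun k _ => continuous_apply k) continuous_const
  exact h1.inter (h2.inter h3)

/-- sum of all products of three coordinates with different indices -/
def triple (x : Fin 5 → ℝ) : ℝ :=
  ∑ i, ∑ j, ∑ k, if i < j ∧ j < k then x i * x j * x k else 0

theorem continuous_triple : Continuous triple := by
  unfold triple
  refine continuous_finsetSum _ fun i _ => continuous_finsetSum _ fun j _ =>
    continuous_finsetSum _ fun k _ => ?_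
  split_ifs
  · exact ((continuous_apply i).mul (continuous_apply j)).mul (continuous_apply k)
  · exact continuous_const

theorem triple_eq_zero {x : Fin 5 → ℝ} {P : Finset (Fin 5)} (hP : P.card ≤ 2)
    (h : ∀ k, k ∉ P → x k = 0) : triple x = 0 := by
  unfold triple
  refine Finset.sum_eq_zero fun i _ => Finset.sum_eq_zero fun j _ => Finset.sum_eq_zero fun k _ => ?_
  split_ifs with hc
  · by_contra hne
    have hi : i ∈ P := by by_contra hi; exact hne (by rw [h i hi]; ring)
    have hj : j ∈ P := by by_contra hj; exact hne (by rw [h j hj]; ring)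
    have hk : k ∈ P := by by_contra hk; exact hne (by rw [h k hk]; ring)
    have hsub : ({i, j, k} : Finset (Fin 5)) ⊆ P := by
      intro a ha
      simp only [Finset.mem_insert, Finset.mem_singleton] at ha
      rcases ha with rfl | rfl | rfl <;> assumption
    have hcard : ({i, j, k} : Finset (Fin 5)).card = 3 := by
      rw [Finset.card_eq_three]
      exact ⟨i, j, k, hc.1.ne, (hc.1.trans hc.2).ne, hc.2.ne, rfl⟩
    have := Finset.card_le_card hsub
    omega
  · rfl

theorem card_le_two {x : Fin 5 → ℝ} (hx : ∀ k, 0 ≤ x k) (h : triple x = 0) {P : Finset (Fin 5)}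
    (hP : ∀ k, k ∈ P → 0 < x k) : P.card ≤ 2 := by
  by_contra hcon
  push Not at hcon
  obtain ⟨Q, hQP, hQ⟩ := Finset.exists_subset_card_eq (show 3 ≤ P.card by omega)
  -- the ordered enumeration of `Q`
  let e := Q.orderEmbOfFin hQ
  have he : ∀ a, 0 < x (e a) := fun a => hP _ (hQP (Finset.orderEmbOfFin_mem Q hQ a))
  have h01 : e 0 < e 1 := e.lt_iff_lt.2 (by decide)
  have h12 : e 1 < e 2 := e.lt_iff_lt.2 (by decide)
  have hpos : 0 < triple x := by
    unfold triple
    have hnn : ∀ i j k : Fin 5, (0 : ℝ) ≤ if i < j ∧ j < k then x i * x j * x k else 0 := by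
      intro i j k
      split_ifs
      · exact mul_nonneg (mul_nonneg (hx i) (hx j)) (hx k)
      · exact le_rfl
    refine lt_of_lt_of_le (mul_pos (mul_pos (he 0) (he 1)) (he 2)) ?_
    calc x (e 0) * x (e 1) * x (e 2)
        = (if e 0 < e 1 ∧ e 1 < e 2 then x (e 0) * x (e 1) * x (e 2) else 0) := by
          rw [if_pos ⟨h01, h12⟩]
      _ ≤ ∑ k, (if e 0 < e 1 ∧ e 1 < k then x (e 0) * x (e 1) * x k else 0) :=
          Finset.single_le_sum (f := fun k => if e 0 < e 1 ∧ e 1 < k then x (e 0) * x (e 1) * x k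
            else 0) (fun k _ => hnn _ _ _) (Finset.mem_univ (e 2))
      _ ≤ ∑ j, ∑ k, (if e 0 < j ∧ j < k then x (e 0) * x j * x k else 0) :=
          Finset.single_le_sum (f := fun j => ∑ k, (if e 0 < j ∧ j < k then x (e 0) * x j * x k
            else 0)) (fun j _ => Finset.sum_nonneg fun k _ => hnn _ _ _) (Finset.mem_univ (e 1))
      _ ≤ ∑ i, ∑ j, ∑ k, (if i < j ∧ j < k then x i * x j * x k else 0) :=
          Finset.single_le_sum (f := fun i => ∑ j, ∑ k, (if i < j ∧ j < k then x i * x j * x k
            else 0)) (fun i _ => Finset.sum_nonneg fun j _ => Finset.sum_nonneg fun k _ => hnn _ _ _)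
            (Finset.mem_univ (e 0))
  rw [h] at hpos
  exact lt_irrefl _ hpos

/-- the total weight of the positive part -/
noncomputable def posW (y : Fin 5 → ℝ) : ℝ := ∑ k, max (y k) 0

/-- the normalised positive part -/
noncomputable def posP (y : Fin 5 → ℝ) : Fin 5 → ℝ := fun k => max (y k) 0 / posW y

theorem posW_neg {y : Fin 5 → ℝ} (h : ∑ k, y k = 0) : posW (-y) = posW y := by
  have h1 : posW y - posW (-y) = ∑ k, y k := by
    unfold posW
    rw [← Finset.sum_sub_distrib]
    refine Finset.sum_congr rfl fun k _ => ?_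
    simp only [Pi.neg_apply]
    rcases le_total 0 (y k) with h0 | h0
    · rw [max_eq_left h0, max_eq_right (by linarith)]; ring
    · rw [max_eq_right h0, max_eq_left (by linarith)]; ring
  rw [h] at h1
  linarith

theorem posW_pos {y : Fin 5 → ℝ} (h : ∑ k, y k = 0) (hy : y ≠ 0) : 0 < posW y := by
  have hnn : 0 ≤ posW y := Finset.sum_nonneg fun k _ => le_max_right _ _
  rcases hnn.lt_or_eq with h1 | h1
  · exact h1
  · exfalso
    apply hy
    have h2 : ∀ z : Fin 5 → ℝ, posW z = 0 → ∀ k, z k ≤ 0 := by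
      intro z hz k
      have := (Finset.sum_eq_zero_iff_of_nonneg (fun k _ => le_max_right (z k) 0)).1 hz k
        (Finset.mem_univ k)
      exact max_eq_right_iff.1 this
    funext k
    have ha := h2 y h1.symm k
    have hb := h2 (-y) (by rw [posW_neg h]; exact h1.symm) k
    simp only [Pi.neg_apply] at hb
    simp only [Pi.zero_apply]
    linarith

theorem posP_mem {y : Fin 5 → ℝ} (h : ∑ k, y k = 0) (hy : y ≠ 0) :
    (∀ k, 0 ≤ posP y k) ∧ ∑ k, posP y k = 1 := by
  have hp := posW_pos h hy
  refine ⟨fun k => div_nonneg (le_max_right _ _) hp.le, ?_⟩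
  unfold posP
  rw [← Finset.sum_div]
  exact div_self hp.ne'

theorem continuousOn_posP (c : Fin 5) :
    ContinuousOn (fun y : Fin 5 → ℝ => posP y c) {y | 0 < posW y} := by
  have h1 : Continuous (fun y : Fin 5 → ℝ => posW y) :=
    continuous_finsetSum _ fun k _ => (continuous_apply k).max continuous_const
  exact ContinuousOn.div ((continuous_apply c).max continuous_const).continuousOn h1.continuousOn
    fun y hy => (ne_of_gt hy)

/-- **van Kampen-Flores theorem** for `K₅`: for a continuous map of the simplex to the plane, the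
images of two disjoint edges of the simplex meet. -/
theorem van_kampen_flores (g : (Fin 5 → ℝ) → (Fin 2 → ℝ)) (hg : Continuous g) :
    ∃ i j k l : Fin 5, i < j ∧ k < l ∧ i ≠ k ∧ i ≠ l ∧ j ≠ k ∧ j ≠ l ∧
      ∃ x ∈ edgeSet i j, ∃ y ∈ edgeSet k l, g x = g y := by
  classical
  let φ : (Fin 5 → ℝ) →ₗ[ℝ] ℝ := ∑ k, LinearMap.proj k
  have hφ : ∀ y, φ y = ∑ k, y k := fun y => by simp [φ]
  let V := LinearMap.ker φ
  have hmem : ∀ v : V, ∑ k, (v : Fin 5 → ℝ) k = 0 := fun v => by
    have := v.2
    rw [LinearMap.mem_ker, hφ] at this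
    exact this
  have hfr : finrank ℝ (Fin 3 → ℝ) < finrank ℝ V := by
    have h1 := LinearMap.finrank_range_add_finrank_ker φ
    have h2 : finrank ℝ (LinearMap.range φ) ≤ 1 := by
      calc finrank ℝ (LinearMap.range φ) ≤ finrank ℝ ℝ := Submodule.finrank_le _
        _ = 1 := finrank_self ℝ
    simp only [Module.finrank_fintype_fun_eq_card, Fintype.card_fin] at h1 ⊢
    change finrank ℝ (LinearMap.range φ) + finrank ℝ V = 5 at h1
    omega
  let G : (Fin 5 → ℝ) → (Fin 3 → ℝ) := fun x => ![g x 0, g x 1, triple x]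
  have hG : Continuous G := by
    refine continuous_pi fun c => ?_
    fin_cases c
    · exact (show Continuous fun x => g x 0 from (continuous_apply 0).comp hg)
    · exact (show Continuous fun x => g x 1 from (continuous_apply 1).comp hg)
    · exact continuous_triple
  let F : V → (Fin 3 → ℝ) := fun v => G (posP v) - G (posP (-(v : Fin 5 → ℝ)))
  have hF : ContinuousOn F {0}ᶜ := by
    have hP : ContinuousOn (fun v : V => posP (v : Fin 5 → ℝ)) {0}ᶜ := by
      refine continuousOn_pi.2 fun c => ?_
      refine (continuousOn_posP c).comp continuous_subtype_val.continuousOn ?_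
      intro v hv
      exact posW_pos (hmem v) (fun h => hv (Subtype.ext h))
    have hN : ContinuousOn (fun v : V => posP (-(v : Fin 5 → ℝ))) {0}ᶜ := by
      refine continuousOn_pi.2 fun c => ?_
      refine (continuousOn_posP c).comp (f := fun v : V => -(v : Fin 5 → ℝ))
        continuous_subtype_val.neg.continuousOn ?_
      intro v hv
      change 0 < posW (-(v : Fin 5 → ℝ))
      rw [posW_neg (hmem v)]
      exact posW_pos (hmem v) (fun h => hv (Subtype.ext h))
    exact (hG.comp_continuousOn hP).sub (hG.comp_continuousOn hN)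
  obtain ⟨v, hv, hv0⟩ := Pool.Agent.Lib.BorsukUlam.exists_zero_of_odd hfr F hF (by
    intro v _
    simp only [F]
    rw [Submodule.coe_neg, neg_neg, neg_sub])
  set y : Fin 5 → ℝ := (v : Fin 5 → ℝ) with hy
  have hsum : ∑ k, y k = 0 := hmem v
  have hy0 : y ≠ 0 := fun h => hv (Subtype.ext h)
  have hny0 : -y ≠ 0 := neg_ne_zero.2 hy0
  have hnsum : ∑ k, (-y) k = 0 := by simp [hsum]
  have hW := posW_pos hsum hy0
  have hW' := posW_pos hnsum hny0
  obtain ⟨hu0, hu1⟩ := posP_mem hsum hy0
  obtain ⟨hw0, hw1⟩ := posP_mem hnsum hny0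
  have hGe : G (posP y) = G (posP (-y)) := sub_eq_zero.1 hv0
  have hg01 : g (posP y) = g (posP (-y)) := by
    funext c
    fin_cases c
    · exact congrFun hGe 0
    · exact congrFun hGe 1
  have htr : triple (posP y) = triple (posP (-y)) := congrFun hGe 2
  let P : Finset (Fin 5) := Finset.univ.filter fun k => 0 < y k
  let N : Finset (Fin 5) := Finset.univ.filter fun k => y k < 0
  have hPm : ∀ k, k ∈ P ↔ 0 < y k := fun k => by simp [P]
  have hNm : ∀ k, k ∈ N ↔ y k < 0 := fun k => by simp [N]
  have hdisj : Disjoint P N := by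
    rw [Finset.disjoint_left]
    intro k hk hk'
    rw [hPm] at hk
    rw [hNm] at hk'
    exact lt_asymm hk hk'
  have hPz : ∀ k, k ∉ P → posP y k = 0 := by
    intro k hk
    rw [hPm, not_lt] at hk
    simp only [posP]
    rw [max_eq_right hk, zero_div]
  have hNz : ∀ k, k ∉ N → posP (-y) k = 0 := by
    intro k hk
    rw [hNm, not_lt] at hk
    simp only [posP, Pi.neg_apply]
    rw [max_eq_right (by linarith), zero_div]
  have hPp : ∀ k, k ∈ P → 0 < posP y k := by
    intro k hk
    rw [hPm] at hk
    simp only [posP]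
    rw [max_eq_left hk.le]
    exact div_pos hk hW
  have hNp : ∀ k, k ∈ N → 0 < posP (-y) k := by
    intro k hk
    rw [hNm] at hk
    simp only [posP, Pi.neg_apply]
    rw [max_eq_left (by linarith)]
    exact div_pos (by linarith) hW'
  have hcard : P.card + N.card ≤ 5 := by
    rw [← Finset.card_union_of_disjoint hdisj]
    calc (P ∪ N).card ≤ (Finset.univ : Finset (Fin 5)).card := Finset.card_le_univ _
      _ = 5 := by simp
  have hboth : P.card ≤ 2 ∧ N.card ≤ 2 := by
    rcases Nat.lt_or_ge 2 P.card with h | h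
    · have hN2 : N.card ≤ 2 := by omega
      have := triple_eq_zero hN2 hNz
      rw [this] at htr
      exact ⟨card_le_two hu0 htr hPp, hN2⟩
    · have := triple_eq_zero h hPz
      rw [this] at htr
      exact ⟨h, card_le_two hw0 htr.symm hNp⟩
  obtain ⟨P', hPP', hP'N, hP'⟩ := Finset.exists_subsuperset_card_eq
    (s := P) (t := Nᶜ) (n := 2) (by
      intro k hk
      rw [Finset.mem_compl]
      exact Finset.disjoint_left.1 hdisj hk) hboth.1 (by
      rw [Finset.card_compl, Fintype.card_fin]; omega)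
  obtain ⟨N', hNN', hN'P, hN'⟩ := Finset.exists_subsuperset_card_eq
    (s := N) (t := P'ᶜ) (n := 2) (by
      intro k hk
      rw [Finset.mem_compl]
      intro hk'
      exact (Finset.mem_compl.1 (hP'N hk')) hk) hboth.2 (by
      rw [Finset.card_compl, Fintype.card_fin]; omega)
  -- ordered pairs
  have hpair : ∀ Q : Finset (Fin 5), Q.card = 2 → ∃ a b, a < b ∧ Q = {a, b} := by
    intro Q hQ
    obtain ⟨a, b, hab, rfl⟩ := Finset.card_eq_two.1 hQ
    rcases lt_or_gt_of_ne hab with h | h
    · exact ⟨a, b, h, rfl⟩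
    · exact ⟨b, a, h, Finset.pair_comm a b⟩
  obtain ⟨i, j, hij, rfl⟩ := hpair P' hP'
  obtain ⟨k, l, hkl, rfl⟩ := hpair N' hN'
  have hk1 : k ∈ ({i, j} : Finset (Fin 5))ᶜ := hN'P (by simp)
  have hl1 : l ∈ ({i, j} : Finset (Fin 5))ᶜ := hN'P (by simp)
  simp only [Finset.mem_compl, Finset.mem_insert, Finset.mem_singleton, not_or] at hk1 hl1
  refine ⟨i, j, k, l, hij, hkl, Ne.symm hk1.1, Ne.symm hl1.1, Ne.symm hk1.2, Ne.symm hl1.2,
    posP y, ⟨hu0, fun a ha hb => hPz a fun h => ?_, hu1⟩,
    posP (-y), ⟨hw0, fun a ha hb => hNz a fun h => ?_, hw1⟩, hg01⟩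
  · have := hPP' h
    simp only [Finset.mem_insert, Finset.mem_singleton] at this
    tauto
  · have := hNN' h
    simp only [Finset.mem_insert, Finset.mem_singleton] at this
    tauto

theorem mem_edge_two {i j : Fin 5} {x : Fin 5 → ℝ} (hij : i ≠ j) (hx : x ∈ edgeSet i j) :
    x i + x j = 1 := by
  obtain ⟨-, h0, h1⟩ := hx
  rw [← h1, ← Finset.sum_subset (Finset.subset_univ ({i, j} : Finset (Fin 5)))]
  · rw [Finset.sum_pair hij]
  · intro k _ hk
    simp only [Finset.mem_insert, Finset.mem_singleton, not_or] at hk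
    exact h0 k hk.1 hk.2

/-- A drawing of `K₅` by paths: the paths drawing some two disjoint edges meet. -/
theorem paths_meet (p : Fin 5 → Plane) (γ : ∀ i j : Fin 5, Path (p i) (p j)) :
    ∃ i j k l : Fin 5, i < j ∧ k < l ∧ i ≠ k ∧ i ≠ l ∧ j ≠ k ∧ j ≠ l ∧
      (range (γ i j) ∩ range (γ k l)).Nonempty := by
  classical
  -- the map on the skeleton
  let e : Fin 5 → Fin 5 → (Fin 5 → ℝ) → (Fin 2 → ℝ) := fun i j x c => (γ i j).extend (x j) c
  have he : ∀ i j, Continuous (e i j) := by
    intro i j
    refine continuous_pi fun c => ?_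
    have h1 : Continuous fun x : Fin 5 → ℝ => (γ i j).extend (x j) :=
      (γ i j).continuous_extend.comp (continuous_apply j)
    have h2 : Continuous fun z : Plane => z c := by fun_prop
    exact h2.comp h1
  have hag : ∀ i j k l : Fin 5, i < j → k < l → ∀ x, x ∈ edgeSet i j → x ∈ edgeSet k l →
      e i j x = e k l x := by
    intro i j k l hij hkl x hx hy
    by_cases h : i = k ∧ j = l
    · rw [h.1, h.2]
    -- `x` is a vertex
    have hvert : ∀ a b : Fin 5, a < b → x ∈ edgeSet a b → ∀ v, x v = 1 →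
        e a b x = fun c => p v c := by
      intro a b hab hxab v hv
      have h2 := mem_edge_two hab.ne hxab
      have hva : v = a ∨ v = b := by
        by_contra hcon
        push Not at hcon
        rw [hxab.2.1 v hcon.1 hcon.2] at hv
        exact zero_ne_one hv
      funext c
      rcases hva with rfl | rfl
      · have : x b = 0 := by linarith
        simp [e, this]
      · simp [e, hv]
    -- the support of `x` has one element
    have hone : ∃ v, x v = 1 := by
      have h1 := mem_edge_two hij.ne hx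
      have h2 := mem_edge_two hkl.ne hy
      by_cases hi : i = k ∨ i = l
      · by_cases hj : j = k ∨ j = l
        · exfalso
          apply h
          rcases hi with rfl | rfl <;> rcases hj with rfl | rfl
          · exact absurd hij (lt_irrefl _)
          · exact ⟨rfl, rfl⟩
          · exact absurd hij (lt_asymm hkl)
          · exact absurd hij (lt_irrefl _)
        · push Not at hj
          exact ⟨i, by rw [hy.2.1 j hj.1 hj.2] at h1; linarith⟩
      · push Not at hi
        exact ⟨j, by rw [hy.2.1 i hi.1 hi.2] at h1; linarith⟩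
    obtain ⟨v, hv⟩ := hone
    rw [hvert i j hij hx v hv, hvert k l hkl hy v hv]
  let ι := {q : Fin 5 × Fin 5 // q.1 < q.2}
  let S : ι → Set (Fin 5 → ℝ) := fun q => edgeSet q.1.1 q.1.2
  have hScl : ∀ q, IsClosed (S q) := fun q => isClosed_edgeSet _ _
  let K : Set (Fin 5 → ℝ) := ⋃ q, S q
  have hK : IsClosed K := isClosed_iUnion_of_finite hScl
  let f : (Fin 5 → ℝ) → (Fin 2 → ℝ) := fun x =>
    if h : ∃ q : ι, x ∈ S q then e h.choose.1.1 h.choose.1.2 x else 0
  have hf : ∀ q : ι, ∀ x ∈ S q, f x = e q.1.1 q.1.2 x := by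
    intro q x hx
    have h : ∃ q : ι, x ∈ S q := ⟨q, hx⟩
    simp only [f]
    rw [dif_pos h]
    exact hag _ _ _ _ h.choose.2 q.2 x h.choose_spec hx
  have hfc : ContinuousOn f K := by
    refine (locallyFinite_of_finite S).continuousOn_iUnion hScl fun q => ?_
    exact (he q.1.1 q.1.2).continuousOn.congr fun x hx => hf q x hx
  obtain ⟨g, hg⟩ := ContinuousMap.exists_restrict_eq hK
    (⟨K.domRestrict f, hfc.domRestrict⟩ : C(K, Fin 2 → ℝ))
  have hgf : ∀ x ∈ K, g x = f x := fun x hx => by
    exact congrArg (fun h : C(K, Fin 2 → ℝ) => h ⟨x, hx⟩) hg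
  obtain ⟨i, j, k, l, hij, hkl, h1, h2, h3, h4, x, hx, y, hy, hxy⟩ :=
    van_kampen_flores g g.continuous
  refine ⟨i, j, k, l, hij, hkl, h1, h2, h3, h4, ?_⟩
  have hxK : x ∈ K := mem_iUnion.2 ⟨⟨(i, j), hij⟩, hx⟩
  have hyK : y ∈ K := mem_iUnion.2 ⟨⟨(k, l), hkl⟩, hy⟩
  rw [hgf x hxK, hgf y hyK, hf ⟨(i, j), hij⟩ x hx, hf ⟨(k, l), hkl⟩ y hy] at hxy
  have hpt : (γ i j).extend (x j) = (γ k l).extend (y l) := by
    ext c
    exact congrFun hxy c
  refine ⟨(γ i j).extend (x j), ?_, ?_⟩
  · rw [← (γ i j).extend_range]; exact mem_range_self _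
  · rw [hpt, ← (γ k l).extend_range]; exact mem_range_self _

/-- The graph obtained from `K₅` by subdividing every edge once is not a string graph. -/
theorem not_isStringGraph : ¬ IsStringGraph subdividedK5 := by
  rintro ⟨γ, hγ, hadj⟩
  have hends : ∀ i j : Fin 5, ∃ m : Fin 10, i = j ∨ ((ends m).1 = i ∧ (ends m).2 = j) ∨
      ((ends m).1 = j ∧ (ends m).2 = i) := by decide
  choose m hm using hends
  let p : Fin 5 → Plane := fun i => γ (.inl i) 0
  let R : Fin 5 → Fin 5 → Set Plane := fun i j =>
    range (γ (.inl i)) ∪ (range (γ (.inr (m i j))) ∪ range (γ (.inl j)))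
  have hI : PathConnectedSpace unitInterval := isPathConnected_iff_pathConnectedSpace.1
    ((convex_Icc (0 : ℝ) 1).isPathConnected ⟨0, by simp⟩)
  have hpc : ∀ v, IsPathConnected (range (γ v)) := fun v => isPathConnected_range (hγ v)
  have hjoin : ∀ i j, i ≠ j → JoinedIn (R i j) (p i) (p j) := by
    intro i j hij
    have hm' := (hm i j).resolve_left hij
    have h1 : (range (γ (.inr (m i j))) ∩ range (γ (.inl j))).Nonempty := by
      rw [← hadj _ _ (by simp)]
      change j = _ ∨ j = _
      rcases hm' with h | h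
      · exact Or.inr h.2.symm
      · exact Or.inl h.1.symm
    have h2 : (range (γ (.inl i)) ∩ range (γ (.inr (m i j)))).Nonempty := by
      rw [← hadj _ _ (by simp)]
      change i = _ ∨ i = _
      rcases hm' with h | h
      · exact Or.inl h.1.symm
      · exact Or.inr h.2.symm
    have h3 := (hpc (.inr (m i j))).union (hpc (.inl j)) h1
    have h4 : (range (γ (.inl i)) ∩ (range (γ (.inr (m i j))) ∪ range (γ (.inl j)))).Nonempty :=
      h2.mono (inter_subset_inter_right _ subset_union_left)
    exact ((hpc (.inl i)).union h3 h4).joinedIn _ (Or.inl (mem_range_self _)) _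
      (Or.inr (Or.inr (mem_range_self _)))
  let Γ : ∀ i j : Fin 5, Path (p i) (p j) := fun i j =>
    if h : i = j then (Path.refl (p i)).cast rfl (by rw [h]) else (hjoin i j h).somePath
  obtain ⟨i, j, k, l, hij, hkl, hik, hil, hjk, hjl, x, hx, hy⟩ := paths_meet p Γ
  have hxR : ∀ a b : Fin 5, a < b → x ∈ range (Γ a b) → x ∈ R a b := by
    rintro a b hab ⟨t, rfl⟩
    simp only [Γ]
    rw [dif_neg hab.ne]
    exact (hjoin a b hab.ne).somePath_mem t
  have hx' := hxR i j hij hx
  have hy' := hxR k l hkl hy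
  have key : ∀ u v, u ≠ v → ¬ subdividedK5.Adj u v → x ∈ range (γ u) → x ∈ range (γ v) → False :=
    fun u v huv hn h1 h2 => hn ((hadj u v huv).2 ⟨x, h1, h2⟩)
  have hm1 := (hm i j).resolve_left hij.ne
  have hm2 := (hm k l).resolve_left hkl.ne
  have hmm : m i j ≠ m k l := by
    intro h
    rw [h] at hm1
    rcases hm1 with h1 | h1 <;> rcases hm2 with h2 | h2
    · exact hik (h1.1.symm.trans h2.1)
    · exact hil (h1.1.symm.trans h2.1)
    · exact hjk (h1.1.symm.trans h2.1)
    · exact hjl (h1.1.symm.trans h2.1)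
  have hn1 : ∀ a, a = i ∨ a = j → ¬ (a = (ends (m k l)).1 ∨ a = (ends (m k l)).2) := by
    rintro a (rfl | rfl) (h | h) <;> rcases hm2 with h2 | h2
    · exact hik (h.trans h2.1)
    · exact hil (h.trans h2.1)
    · exact hil (h.trans h2.2)
    · exact hik (h.trans h2.2)
    · exact hjk (h.trans h2.1)
    · exact hjl (h.trans h2.1)
    · exact hjl (h.trans h2.2)
    · exact hjk (h.trans h2.2)
  have hn2 : ∀ a, a = k ∨ a = l → ¬ (a = (ends (m i j)).1 ∨ a = (ends (m i j)).2) := by
    rintro a (rfl | rfl) (h | h) <;> rcases hm1 with h2 | h2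
    · exact hik (h.trans h2.1).symm
    · exact hjk (h.trans h2.1).symm
    · exact hjk (h.trans h2.2).symm
    · exact hik (h.trans h2.2).symm
    · exact hil (h.trans h2.1).symm
    · exact hjl (h.trans h2.1).symm
    · exact hjl (h.trans h2.2).symm
    · exact hil (h.trans h2.2).symm
  rcases hx' with h1 | h1 | h1 <;> rcases hy' with h2 | h2 | h2
  · exact key _ _ (fun h => hik (Sum.inl.inj h)) (fun h => h) h1 h2
  · exact key (.inl i) (.inr (m k l)) (by simp) (hn1 i (Or.inl rfl)) h1 h2
  · exact key _ _ (fun h => hil (Sum.inl.inj h)) (fun h => h) h1 h2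
  · exact key (.inr (m i j)) (.inl k) (by simp) (hn2 k (Or.inl rfl)) h1 h2
  · exact key _ _ (fun h => hmm (Sum.inr.inj h)) (fun h => h) h1 h2
  · exact key (.inr (m i j)) (.inl l) (by simp) (hn2 l (Or.inr rfl)) h1 h2
  · exact key _ _ (fun h => hjk (Sum.inl.inj h)) (fun h => h) h1 h2
  · exact key (.inl j) (.inr (m k l)) (by simp) (hn1 j (Or.inr rfl)) h1 h2
  · exact key _ _ (fun h => hjl (Sum.inl.inj h)) (fun h => h) h1 h2

end Pool.Agent.ConfStr48
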