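import Pool.Agent.ConfStr48.Defs

/-!
# Pushing a finite family of tips through the plane

Finitely many tips move in the plane, in small steps. Each step is extended to an injective
continuous map of the plane which moves the tips to their next positions and which moves no point by
more than `τ`.
-/

namespace Pool.Agent.ConfStr48

open Set

section Flow

variable {W : Type*} [Fintype W]

/-- The data of a discrete motion of tips. -/
structure Motion (W : Type*) [Fintype W] where
  /-- the number of steps -/
  N : ℕ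
  /-- the positions of the tips -/
  P : W → ℕ → Plane
  /-- the first step of a tip -/
  st : W → ℕ
  /-- the radius -/
  ρ : ℝ
  /-- the size of the steps -/
  τ : ℝ
  hρ : 0 < ρ
  hτ : 0 ≤ τ
  hsmall : Fintype.card W * τ < ρ
  hstep : ∀ w k, st w ≤ k → ‖P w (k + 1) - P w k‖ ≤ τ
  hsep : ∀ w u k, w ≠ u → st w ≤ k → st u ≤ k → k ≤ N → 2 * ρ ≤ dist (P w k) (P u k)
  hst : ∀ w, st w ≤ N

variable (m : Motion W)

/-- The bump function at the tip `w`. -/
noncomputable def Motion.bump (w : W) (k : ℕ) (z : Plane) : ℝ := max 0 (1 - dist z (m.P w k) / m.ρ)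

open scoped Classical in
/-- The map of the plane at step `k`. -/
noncomputable def Motion.h (k : ℕ) (z : Plane) : Plane :=
  z + ∑ w, if m.st w ≤ k then m.bump w k z • (m.P w (k + 1) - m.P w k) else 0

lemma Motion.bump_nonneg (w : W) (k : ℕ) (z : Plane) : 0 ≤ m.bump w k z := le_max_left _ _

lemma Motion.bump_le (w : W) (k : ℕ) (z : Plane) : m.bump w k z ≤ 1 := by
  unfold Motion.bump
  refine max_le zero_le_one ?_
  have : 0 ≤ dist z (m.P w k) / m.ρ := div_nonneg dist_nonneg m.hρ.le
  linarith

lemma Motion.bump_eq_zero {w : W} {k : ℕ} {z : Plane} (h : m.ρ ≤ dist z (m.P w k)) :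
    m.bump w k z = 0 := by
  unfold Motion.bump
  refine max_eq_left ?_
  have : 1 ≤ dist z (m.P w k) / m.ρ := (one_le_div m.hρ).mpr h
  linarith

lemma Motion.bump_self (w : W) (k : ℕ) : m.bump w k (m.P w k) = 1 := by
  unfold Motion.bump
  rw [dist_self, zero_div, sub_zero]
  exact max_eq_right zero_le_one

lemma Motion.bump_lip (w : W) (k : ℕ) (z z' : Plane) :
    |m.bump w k z - m.bump w k z'| ≤ dist z z' / m.ρ := by
  unfold Motion.bump
  calc |max 0 (1 - dist z (m.P w k) / m.ρ) - max 0 (1 - dist z' (m.P w k) / m.ρ)|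
      ≤ |(1 - dist z (m.P w k) / m.ρ) - (1 - dist z' (m.P w k) / m.ρ)| := by
        have := abs_max_sub_max_le_abs (1 - dist z (m.P w k) / m.ρ) (1 - dist z' (m.P w k) / m.ρ) 0
        rwa [max_comm _ (0 : ℝ), max_comm _ (0 : ℝ)] at this
    _ = |dist z' (m.P w k) - dist z (m.P w k)| / m.ρ := by
        rw [show (1 - dist z (m.P w k) / m.ρ) - (1 - dist z' (m.P w k) / m.ρ) =
          (dist z' (m.P w k) - dist z (m.P w k)) / m.ρ by ring, abs_div, abs_of_pos m.hρ]
    _ ≤ dist z z' / m.ρ := by
        refine div_le_div_of_nonneg_right ?_ m.hρ.le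
        rw [dist_comm z z']
        exact abs_dist_sub_le _ _ _

lemma Motion.h_inj (k : ℕ) : Function.Injective (m.h k) := by
  classical
  intro z z' hz
  by_contra hne
  have hpos : 0 < dist z z' := dist_pos.mpr hne
  have h1 : z - z' = ∑ w, (if m.st w ≤ k then (m.bump w k z' - m.bump w k z) •
      (m.P w (k + 1) - m.P w k) else 0) := by
    unfold Motion.h at hz
    have : z - z' = (∑ w, if m.st w ≤ k then m.bump w k z' • (m.P w (k + 1) - m.P w k) else 0) -
        ∑ w, if m.st w ≤ k then m.bump w k z • (m.P w (k + 1) - m.P w k) else 0 := by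
      rw [sub_eq_sub_iff_add_eq_add, hz, add_comm]
    rw [this, ← Finset.sum_sub_distrib]
    refine Finset.sum_congr rfl fun w _ => ?_
    split_ifs
    · rw [sub_smul]
    · rw [sub_zero]
  have h2 : dist z z' ≤ Fintype.card W * (dist z z' / m.ρ * m.τ) := by
    calc dist z z' = ‖z - z'‖ := dist_eq_norm _ _
      _ ≤ ∑ w, ‖(if m.st w ≤ k then (m.bump w k z' - m.bump w k z) •
          (m.P w (k + 1) - m.P w k) else 0 : Plane)‖ := by rw [h1]; exact norm_sum_le _ _
      _ ≤ ∑ _w : W, dist z z' / m.ρ * m.τ := by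
          refine Finset.sum_le_sum fun w _ => ?_
          split_ifs with hw
          · rw [norm_smul, Real.norm_eq_abs]
            refine mul_le_mul ?_ (m.hstep w k hw) (norm_nonneg _)
              (div_nonneg dist_nonneg m.hρ.le)
            rw [dist_comm z z']
            exact m.bump_lip w k z' z
          · rw [norm_zero]
            exact mul_nonneg (div_nonneg dist_nonneg m.hρ.le) m.hτ
      _ = _ := by rw [Finset.sum_const, Finset.card_univ, nsmul_eq_mul]
  have h3 : (Fintype.card W : ℝ) * (dist z z' / m.ρ * m.τ) =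
      (Fintype.card W * m.τ) / m.ρ * dist z z' := by ring
  rw [h3] at h2
  have h4 : (Fintype.card W * m.τ) / m.ρ < 1 := (div_lt_one m.hρ).mpr m.hsmall
  nlinarith

lemma Motion.h_cont (k : ℕ) : Continuous (m.h k) := by
  classical
  unfold Motion.h
  refine continuous_id.add (continuous_finsetSum _ fun w _ => ?_)
  by_cases hw : m.st w ≤ k
  · simp only [hw, if_true]
    unfold Motion.bump
    fun_prop
  · simp only [hw, if_false]
    exact continuous_const

lemma Motion.h_tip {w : W} {k : ℕ} (hw : m.st w ≤ k) (hk : k ≤ m.N) :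
    m.h k (m.P w k) = m.P w (k + 1) := by
  classical
  unfold Motion.h
  rw [Finset.sum_eq_single w]
  · rw [if_pos hw, m.bump_self, one_smul]
    abel
  · intro u _ huw
    split_ifs with hu
    · rw [m.bump_eq_zero, zero_smul]
      have := m.hsep w u k huw.symm hw hu hk
      have := m.hρ
      linarith
    · rfl
  · intro h
    exact absurd (Finset.mem_univ w) h

lemma Motion.h_fix {k : ℕ} {z : Plane} (hz : ∀ w, m.st w ≤ k → m.ρ ≤ dist z (m.P w k)) :
    m.h k z = z := by
  classical
  unfold Motion.h
  rw [Finset.sum_eq_zero, add_zero]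
  intro w _
  split_ifs with hw
  · rw [m.bump_eq_zero (hz w hw), zero_smul]
  · rfl

lemma Motion.h_dist {k : ℕ} (hk : k ≤ m.N) (z : Plane) : dist (m.h k z) z ≤ m.τ := by
  classical
  by_cases hex : ∃ w, m.st w ≤ k ∧ dist z (m.P w k) < m.ρ
  · obtain ⟨w, hw, hzw⟩ := hex
    have : m.h k z = z + m.bump w k z • (m.P w (k + 1) - m.P w k) := by
      unfold Motion.h
      rw [Finset.sum_eq_single w]
      · rw [if_pos hw]
      · intro u _ huw
        split_ifs with hu
        · rw [m.bump_eq_zero, zero_smul]
          have h1 := m.hsep w u k huw.symm hw hu hk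
          have h2 := dist_triangle_left (m.P w k) (m.P u k) z
          linarith
        · rfl
      · intro h
        exact absurd (Finset.mem_univ w) h
    rw [this, dist_eq_norm, add_sub_cancel_left, norm_smul, Real.norm_eq_abs,
      abs_of_nonneg (m.bump_nonneg _ _ _)]
    calc m.bump w k z * ‖m.P w (k + 1) - m.P w k‖ ≤ 1 * m.τ :=
          mul_le_mul (m.bump_le _ _ _) (m.hstep w k hw) (norm_nonneg _) zero_le_one
      _ = m.τ := one_mul _
  · push Not at hex
    rw [m.h_fix hex, dist_self]
    exact m.hτ

/-- The flow from time `i` to time `i + n`. -/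
noncomputable def Motion.fl (i n : ℕ) : Plane → Plane :=
  Nat.rec id (fun n f => m.h (i + n) ∘ f) n

lemma Motion.fl_zero (i : ℕ) (z : Plane) : m.fl i 0 z = z := rfl

lemma Motion.fl_succ (i n : ℕ) (z : Plane) : m.fl i (n + 1) z = m.h (i + n) (m.fl i n z) := rfl

lemma Motion.fl_add (i a b : ℕ) (z : Plane) : m.fl i (a + b) z = m.fl (i + a) b (m.fl i a z) := by
  induction b with
  | zero => rfl
  | succ b ih =>
    rw [← add_assoc, m.fl_succ, m.fl_succ, ih, add_assoc]

lemma Motion.fl_inj (i n : ℕ) : Function.Injective (m.fl i n) := by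
  induction n with
  | zero => exact fun _ _ h => h
  | succ n ih =>
    intro z z' h
    rw [m.fl_succ, m.fl_succ] at h
    exact ih (m.h_inj _ h)

lemma Motion.fl_cont (i n : ℕ) : Continuous (m.fl i n) := by
  induction n with
  | zero => exact continuous_id
  | succ n ih => exact (m.h_cont _).comp ih

lemma Motion.fl_tip {w : W} {n : ℕ} (hn : m.st w + n ≤ m.N) :
    m.fl (m.st w) n (m.P w (m.st w)) = m.P w (m.st w + n) := by
  induction n with
  | zero => rfl
  | succ n ih =>
    rw [m.fl_succ, ih (by omega), m.h_tip (by omega) (by omega)]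
    rfl

lemma Motion.fl_fix {i n : ℕ} {z : Plane} (hn : i + n ≤ m.N)
    (hz : ∀ k w, m.st w ≤ k → k ≤ m.N → m.ρ ≤ dist z (m.P w k)) : m.fl i n z = z := by
  induction n with
  | zero => rfl
  | succ n ih =>
    rw [m.fl_succ, ih (by omega)]
    exact m.h_fix fun w hw => hz _ w hw (by omega)

lemma Motion.fl_dist {i n : ℕ} (hn : i + n ≤ m.N) (c z : Plane) :
    dist c (m.fl i n z) ≤ dist c z + n * m.τ := by
  induction n with
  | zero =>
    rw [m.fl_zero]
    simp
  | succ n ih =>
    have h1 := ih (by omega)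
    have h2 := m.h_dist (k := i + n) (by omega) (m.fl i n z)
    have h3 : dist c (m.h (i + n) (m.fl i n z)) ≤ dist c (m.fl i n z) + m.τ := by
      have := dist_triangle c (m.fl i n z) (m.h (i + n) (m.fl i n z))
      rw [dist_comm (m.fl i n z)] at this
      linarith
    rw [m.fl_succ]
    push_cast
    linarith

end Flow

end Pool.Agent.ConfStr48
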