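import Pool.Agent.ConfStr48.Push

/-!
# The strings obtained by pushing
-/

namespace Pool.Agent.ConfStr48

open Set

variable {V W : Type*} [Fintype W]

/-- The trail of the tip `w`. -/
noncomputable def Motion.trail (m : Motion W) (p : W → Plane) (w : W) : Set Plane :=
  m.fl (m.st w) (m.N - m.st w) '' segment ℝ (p w) (m.P w (m.st w))

/-- The string of `v`. -/
def strs (m : Motion W) (core : V → Set Plane) (src : W → V) (p : W → Plane) (v : V) : Set Plane :=
  core v ∪ ⋃ w : {w : W // src w = v}, m.trail p w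

/-- The hypotheses on the motion. -/
structure Good (m : Motion W) (core : V → Set Plane) (G : SimpleGraph V) (src tgt : W → V)
    (p q : W → Plane) (d : W → ℝ) (η δ : ℝ) : Prop where
  hp : ∀ w, p w ∈ core (src w)
  hq : ∀ w, q w ∈ core (tgt w)
  hend : ∀ w, m.P w m.N = q w
  hns : ∀ w v x, x ∈ core v → dist (p w) x < d w → v = src w ∨ G.Adj (src w) v
  hbud : ∀ w, ∀ z ∈ segment ℝ (p w) (m.P w (m.st w)), dist (p w) z ≤ δ
  hδη : δ < η
  hclock : ∀ w, δ + (η + (m.N - m.st w : ℕ) * m.τ) ≤ d w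
  hbase : ∀ w u k, m.st u ≤ k → k ≤ m.N → m.ρ ≤ dist (p w) (m.P u k)

variable {m : Motion W} {core : V → Set Plane} {G : SimpleGraph V} {src tgt : W → V}
  {p q : W → Plane} {d : W → ℝ} {η δ : ℝ}

lemma Good.base_mem (h : Good m core G src tgt p q d η δ) (w : W) : p w ∈ m.trail p w := by
  refine ⟨p w, left_mem_segment _ _ _, ?_⟩
  have := m.hst w
  exact m.fl_fix (by omega) fun k u hu hk => h.hbase w u k hu hk

lemma Good.end_mem (h : Good m core G src tgt p q d η δ) (w : W) : q w ∈ m.trail p w := by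
  refine ⟨m.P w (m.st w), right_mem_segment _ _ _, ?_⟩
  have := m.hst w
  rw [m.fl_tip (by omega), show m.st w + (m.N - m.st w) = m.N by omega, h.hend]

/-- A point of the trail of `w` is still seen by `p w`. -/
lemma Good.slack (h : Good m core G src tgt p q d η δ) {w : W} {z : Plane}
    (hz : z ∈ segment ℝ (p w) (m.P w (m.st w))) {n : ℕ} (hn : m.st w + n ≤ m.N) :
    dist (p w) (m.fl (m.st w) n z) ≤ d w - η := by
  have h1 := m.fl_dist hn (p w) z
  have h2 := h.hbud w z hz
  have h3 := h.hclock w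
  have h4 : (n : ℝ) * m.τ ≤ (m.N - m.st w : ℕ) * m.τ := by
    refine mul_le_mul_of_nonneg_right ?_ m.hτ
    exact_mod_cast (by omega : n ≤ m.N - m.st w)
  linarith

lemma Good.core_trail (h : Good m core G src tgt p q d η δ) {w : W} {v : V}
    (hne : v ≠ src w) (hv : (core v ∩ m.trail p w).Nonempty) : G.Adj (src w) v := by
  obtain ⟨x, hx, z, hz, rfl⟩ := hv
  have h1 := h.slack hz (n := m.N - m.st w) (by have := m.hst w; omega)
  have hη : 0 < η := lt_of_le_of_lt (le_trans dist_nonneg (h.hbud w z hz)) h.hδη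
  rcases h.hns w v _ hx (by linarith) with h2 | h2
  · exact absurd h2 hne
  · exact h2

lemma Good.trail_trail (h : Good m core G src tgt p q d η δ) {w u : W}
    (hne : src w ≠ src u) (hle : m.st w ≤ m.st u)
    (hv : (m.trail p w ∩ m.trail p u).Nonempty) : G.Adj (src w) (src u) := by
  obtain ⟨x, ⟨z, hz, hzx⟩, z', hz', hzx'⟩ := hv
  have hu := m.hst u
  have e1 : m.N - m.st w = (m.st u - m.st w) + (m.N - m.st u) := by omega
  rw [e1, m.fl_add, show m.st w + (m.st u - m.st w) = m.st u by omega] at hzx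
  have h1 : m.fl (m.st w) (m.st u - m.st w) z = z' := m.fl_inj _ _ (hzx.trans hzx'.symm)
  have h2 := h.slack hz (n := m.st u - m.st w) (by omega)
  rw [h1] at h2
  have h3 := h.hbud u z' hz'
  have h4 : dist (p w) (p u) < d w := by
    have := dist_triangle (p w) z' (p u)
    rw [dist_comm z' (p u)] at this
    linarith [h.hδη]
  rcases h.hns w (src u) _ (h.hp u) h4 with h5 | h5
  · exact absurd h5.symm hne
  · exact h5

theorem Good.inter_iff (h : Good m core G src tgt p q d η δ)
    (hdis : ∀ u v, u ≠ v → Disjoint (core u) (core v))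
    (hcov : ∀ u v, G.Adj u v → ∃ w, (src w = u ∧ tgt w = v) ∨ (src w = v ∧ tgt w = u))
    {u v : V} (huv : u ≠ v) :
    G.Adj u v ↔ (strs m core src p u ∩ strs m core src p v).Nonempty := by
  constructor
  · intro hadj
    obtain ⟨w, hw⟩ := hcov u v hadj
    refine ⟨q w, ?_⟩
    rcases hw with ⟨h1, h2⟩ | ⟨h1, h2⟩
    · refine ⟨Or.inr (mem_iUnion.mpr ⟨⟨w, h1⟩, h.end_mem w⟩), Or.inl (h2 ▸ h.hq w)⟩
    · refine ⟨Or.inl (h2 ▸ h.hq w), Or.inr (mem_iUnion.mpr ⟨⟨w, h1⟩, h.end_mem w⟩)⟩
  · rintro ⟨x, hx1 | hx1, hx2 | hx2⟩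
    · exact absurd hx2 (Set.disjoint_left.mp (hdis u v huv) hx1)
    · obtain ⟨⟨w, hw⟩, hx2⟩ := mem_iUnion.mp hx2
      have := h.core_trail (w := w) (v := u) (by rw [hw]; exact huv) ⟨x, hx1, hx2⟩
      rw [hw] at this
      exact this.symm
    · obtain ⟨⟨w, hw⟩, hx1⟩ := mem_iUnion.mp hx1
      have := h.core_trail (w := w) (v := v) (by rw [hw]; exact huv.symm) ⟨x, hx2, hx1⟩
      rw [hw] at this
      exact this
    · obtain ⟨⟨w, hw⟩, hx1⟩ := mem_iUnion.mp hx1
      obtain ⟨⟨w', hw'⟩, hx2⟩ := mem_iUnion.mp hx2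
      rcases le_total (m.st w) (m.st w') with hle | hle
      · have := h.trail_trail (w := w) (u := w') (by rw [hw, hw']; exact huv) hle ⟨x, hx1, hx2⟩
        rwa [hw, hw'] at this
      · have := h.trail_trail (w := w') (u := w) (by rw [hw, hw']; exact huv.symm) hle
          ⟨x, hx2, hx1⟩
        rw [hw, hw'] at this
        exact this.symm

end Pool.Agent.ConfStr48
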